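import Pool.Agent.H97.GAIN.RVoid
import Pool.Agent.H92.GN.Rec

/-!
# The data of a gain from two affine labels

`gainR_of_lab`: a closed affine label over `I` at a first window, a closed affine label over `I` at a
later window and closed affine labels over the coordinate `y` for the other coordinates of `I` give
the data `GainR`. `gain_lab`: the contradiction.
-/

set_option autoImplicit false

namespace Pool.GN97

open Finset Real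
open Pool.Agent.H49.Ent Pool.Agent.H32.Dense Pool.STK Pool.KA Pool.KSAT Pool.K2S Pool.PB Pool.GEN
open Pool.S6C Pool.LA91 Pool.RCD Pool.OWN72 Pool.MM97
open Pool.STAT (cond_supp)
open Pool.MIC6 (res_of)

variable {m J : ℕ}

/-- Sums over the coordinates. -/
theorem sum_le_card {T : Finset (Fin m)} {f : Fin m → ℝ} {b : ℝ} (hb : 0 ≤ b)
    (h : ∀ k ∈ T, |f k| ≤ b) : |∑ k ∈ T, f k| ≤ m * b := by
  refine (Finset.abs_sum_le_sum_abs _ _).trans ?_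
  refine (Finset.sum_le_sum h).trans ?_
  rw [Finset.sum_const, nsmul_eq_mul]
  have h1 : (T.card : ℝ) ≤ m := by
    have h2 := T.card_le_univ
    rw [Fintype.card_fin] at h2
    exact_mod_cast h2
  exact mul_le_mul_of_nonneg_right h1 hb

/-- **The own velocity from two labels**, one point. -/
theorem lab_pt {I : Finset (Fin m)} {y : Fin m} (hy : y ∈ I) {a a' α β d : Fin m → ℝ}
    {c c' dv : ℝ} {X Nd Ns : ℕ} (ha : ∀ k ∈ I, |a k| ≤ 2 ^ X) (ha' : ∀ k ∈ I, |a' k| ≤ 2 ^ X)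
    (h' : |dv - c' - ∑ k ∈ I, a' k * d k| ≤ 1 / 2 ^ Nd)
    (hk : ∀ k ∈ I.erase y, |d k - β k - α k * d y| ≤ 1 / 2 ^ Ns) :
    |dv - c - ∑ k ∈ I, a k * d k - (c' - c + ∑ k ∈ I.erase y, (a' k - a k) * β k) -
      (a' y - a y + ∑ k ∈ I.erase y, (a' k - a k) * α k) * d y| ≤
      1 / 2 ^ Nd + m * (2 * 2 ^ X * (1 / 2 ^ Ns)) := by
  have e1 := Finset.add_sum_erase I (fun k => a k * d k) hy
  have e2 := Finset.add_sum_erase I (fun k => a' k * d k) hy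
  have e3 : dv - c - ∑ k ∈ I, a k * d k - (c' - c + ∑ k ∈ I.erase y, (a' k - a k) * β k) -
      (a' y - a y + ∑ k ∈ I.erase y, (a' k - a k) * α k) * d y =
      (dv - c' - ∑ k ∈ I, a' k * d k) +
        ∑ k ∈ I.erase y, (a' k - a k) * (d k - β k - α k * d y) := by
    have e4 : ∑ k ∈ I.erase y, (a' k - a k) * (d k - β k - α k * d y) =
        ∑ k ∈ I.erase y, a' k * d k - ∑ k ∈ I.erase y, a k * d k -
          ∑ k ∈ I.erase y, (a' k - a k) * β k -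
          (∑ k ∈ I.erase y, (a' k - a k) * α k) * d y := by
      rw [Finset.sum_mul, ← Finset.sum_sub_distrib, ← Finset.sum_sub_distrib,
        ← Finset.sum_sub_distrib]
      exact Finset.sum_congr rfl fun k _ => by ring
    rw [e4, ← e1, ← e2]
    ring
  rw [e3]
  refine (abs_add_le _ _).trans (add_le_add h' ?_)
  refine sum_le_card (by positivity) fun k hk' => ?_
  rw [abs_mul]
  have h1 := ha k (Finset.mem_of_mem_erase hk')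
  have h2 := ha' k (Finset.mem_of_mem_erase hk')
  have h3 := hk k hk'
  have h4 : |a' k - a k| ≤ 2 * 2 ^ X := (abs_sub _ _).trans (by linarith)
  exact mul_le_mul h4 h3 (abs_nonneg _) (by positivity)

/-- Sizes. -/
theorem lab_sz {T : Finset (Fin m)} {a a' α : Fin m → ℝ} {z : ℝ} {X e : ℕ}
    (ha : ∀ k ∈ T, |a k| ≤ 2 ^ X) (ha' : ∀ k ∈ T, |a' k| ≤ 2 ^ X) (hα : ∀ k ∈ T, |α k| ≤ 2 ^ X)
    (hz : |z| ≤ 2 * 2 ^ X) (he : 2 * X + m + 2 ≤ e) :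
    |z + ∑ k ∈ T, (a' k - a k) * α k| ≤ 2 ^ e := by
  have h1 : |∑ k ∈ T, (a' k - a k) * α k| ≤ m * (2 * 2 ^ X * 2 ^ X) := by
    refine sum_le_card (by positivity) fun k hk => ?_
    rw [abs_mul]
    have h2 : |a' k - a k| ≤ 2 * 2 ^ X :=
      (abs_sub _ _).trans (by linarith [ha k hk, ha' k hk])
    exact mul_le_mul h2 (hα k hk) (abs_nonneg _) (by positivity)
  refine (abs_add_le _ _).trans ?_
  have hm : (m : ℝ) + 1 ≤ 2 ^ m := by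
    have : m + 1 ≤ 2 ^ m := Nat.lt_two_pow_self
    exact_mod_cast this
  have hX : (1 : ℝ) ≤ 2 ^ X := one_le_pow₀ (by norm_num)
  have h3 : 2 * (2 : ℝ) ^ X + m * (2 * 2 ^ X * 2 ^ X) ≤ 2 ^ (2 * X + m + 1) := by
    have e1 : (2 : ℝ) ^ (2 * X + m + 1) = 2 ^ m * (2 * 2 ^ X * 2 ^ X) := by ring
    rw [e1]
    have h4 : 2 * (2 : ℝ) ^ X ≤ 1 * (2 * 2 ^ X * 2 ^ X) := by nlinarith
    have h5 : ((m : ℝ) + 1) * (2 * 2 ^ X * 2 ^ X) ≤ 2 ^ m * (2 * 2 ^ X * 2 ^ X) :=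
      mul_le_mul_of_nonneg_right hm (by positivity)
    linarith
  have h4 : (2 : ℝ) ^ (2 * X + m + 1) ≤ 2 ^ e := pow_le_pow_right₀ (by norm_num) (by omega)
  linarith

/-- Closed sums. -/
theorem Cl1.sum {F : Fam m J} {A : F.Ω → Prop} {w : ℕ} {T : Finset (Fin m)}
    {f : PtT F → Fin m → ℝ} (h : ∀ k ∈ T, Cl1 F A w (fun s => f s k)) :
    Cl1 F A w (fun s => ∑ k ∈ T, f s k) := by
  have h1 : ∀ k, ∃ f' : LnT F → ℝ, k ∈ T → ∀ ω, A ω → f (ptr F J ω) k = f' (slam F w ω) := by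
    intro k
    by_cases hk : k ∈ T
    · obtain ⟨f', hf⟩ := h k hk
      exact ⟨f', fun _ => hf⟩
    · exact ⟨fun _ => 0, fun h => absurd h hk⟩
  choose f' hf using h1
  exact ⟨fun s => ∑ k ∈ T, f' k s, fun ω hω => Finset.sum_congr rfl fun k hk => hf k hk ω hω⟩

/-- The coefficient of the time. -/
noncomputable def pL {F : Fam m J} (I : Finset (Fin m)) (y : Fin m) (a a' β : PtT F → Fin m → ℝ)
    (c c' : PtT F → ℝ) (s : PtT F) : ℝ := c' s - c s + ∑ k ∈ I.erase y, (a' s k - a s k) * β s k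

/-- The slope. -/
noncomputable def qL {F : Fam m J} (I : Finset (Fin m)) (y : Fin m) (a a' α : PtT F → Fin m → ℝ)
    (s : PtT F) : ℝ := a' s y - a s y + ∑ k ∈ I.erase y, (a' s k - a s k) * α s k

/-- **One family.** -/
theorem lab_fam {F : Fam m J} {A B : F.Ω → Prop} (hB : Sub B A) {y : Fin m}
    {I : Finset (Fin m)} (hy : y ∈ I) {v : Fin m} {W₀ W W' X Nb Nd Ns Mn Pn En Γ : ℕ} {b : ℝ}
    (hW : W₀ ≤ W) (hWW : W ≤ W') (hWJ : W' ≤ J)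
    {a a' α β : PtT F → Fin m → ℝ} {c c' : PtT F → ℝ} (h₀ : ClA F A I v W₀ X Nb a c)
    (h' : ClA F A I v W' X Nd a' c')
    (hk : ∀ k ∈ I.erase y, ClA F A {y} k W' X Ns (fun s _ => α s k) (fun s => β s k))
    (n1 : Mn + 2 ≤ Nd) (n2 : Mn + X + m + 3 ≤ Ns) (n3 : Mn + Γ + 2 ≤ Pn + Nb)
    (n4 : Γ + 3 ≤ Pn) (n5 : 2 * X + m + 3 ≤ En)
    (hq : ∀ ω, B ω → |qL I y a a' α (ptr F J ω)| ≤ 2 ^ Γ * (1 / 2 ^ Nb + 1 / 2 ^ Mn)) {V : Type}
    {z : F.Ω → V} (hz : Cl2 (ptr F J) (slam F W) B z)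
    (hfew : CH (Pool.Agent.H49.Ent.cond F.p B True)
      (fun ω => ⌊(2 : ℝ) ^ Mn * ow F I v a c ω⌋)
      (fun ω => (F.D Pn ω y, (z ω, F.W ω))) ≤ b) :
    GainR F y I v W W' En Mn Pn Pn b B a c (pL I y a a' β c c') (qL I y a a' α) z := by
  have pX : (1 : ℝ) ≤ 2 ^ X := one_le_pow₀ (by norm_num)
  have rep : ∀ ω, B ω → |ow F I v a c ω - pL I y a a' β c c' (ptr F J ω) -
      qL I y a a' α (ptr F J ω) * F.d ω y| ≤ 1 / 2 ^ Mn := by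
    intro ω hω
    have k1 := h₀.dp ω (hB ω hω)
    have k2 := h'.dp ω (hB ω hω)
    have k3 := lab_pt (I := I) (y := y) hy (a := a (ptr F J ω)) (a' := a' (ptr F J ω))
      (α := α (ptr F J ω)) (β := β (ptr F J ω)) (d := fun k => F.d ω k) (c := c (ptr F J ω))
      (c' := c' (ptr F J ω)) (dv := F.d ω v) k1.1 k2.1 k2.2.2 (fun k hk' => by
        have h1 := (((hk k hk').dp) ω (hB ω hω)).2.2
        rw [Finset.sum_singleton] at h1
        exact h1)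
    refine k3.trans ?_
    have hm : (m : ℝ) ≤ 2 ^ m := by
      have : m ≤ 2 ^ m := Nat.lt_two_pow_self.le
      exact_mod_cast this
    have g1 : (1 : ℝ) / 2 ^ Nd ≤ 1 / 2 ^ (Mn + 2) :=
      one_div_le_one_div_of_le (by positivity) (pow_le_pow_right₀ (by norm_num) n1)
    have g2 : (1 : ℝ) / 2 ^ Ns ≤ 1 / 2 ^ (Mn + X + m + 3) :=
      one_div_le_one_div_of_le (by positivity) (pow_le_pow_right₀ (by norm_num) n2)
    have g3 : (m : ℝ) * (2 * 2 ^ X * (1 / 2 ^ Ns)) ≤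
        2 ^ m * (2 * 2 ^ X * (1 / 2 ^ (Mn + X + m + 3))) := by
      gcongr
    have g4 : (2 : ℝ) ^ m * (2 * 2 ^ X * (1 / 2 ^ (Mn + X + m + 3))) = 1 / 2 ^ Mn / 4 := by
      rw [pow_add, pow_add, pow_add]
      field_simp
      norm_num
    have g5 : (1 : ℝ) / 2 ^ (Mn + 2) = 1 / 2 ^ Mn / 4 := by
      rw [pow_add]
      field_simp
      norm_num
    have g6 : (0 : ℝ) ≤ 1 / 2 ^ Mn := by positivity
    linarith
  have pM : (0 : ℝ) < 2 ^ Mn := by positivity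
  have pN : (0 : ℝ) < 2 ^ Nb := by positivity
  have hE : (2 : ℝ) ^ Γ * (1 / 2 ^ Nb + 1 / 2 ^ Mn) * 2 ^ Mn * 2 ≤ 2 ^ Pn := by
    have e1 : (2 : ℝ) ^ Γ * (1 / 2 ^ Nb + 1 / 2 ^ Mn) * 2 ^ Mn * 2 =
        2 ^ (Mn + Γ + 2) / 2 ^ Nb / 2 + 2 ^ (Γ + 3) / 4 := by
      rw [pow_add, pow_add, pow_add]
      field_simp
      ring
    rw [e1]
    have g1 : (2 : ℝ) ^ (Mn + Γ + 2) / 2 ^ Nb ≤ 2 ^ Pn := by
      rw [div_le_iff₀ pN, ← pow_add]
      exact pow_le_pow_right₀ (by norm_num) n3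
    have g2 : (2 : ℝ) ^ (Γ + 3) ≤ 2 ^ Pn := pow_le_pow_right₀ (by norm_num) n4
    have g3 : (0 : ℝ) ≤ 2 ^ Pn := by positivity
    linarith
  have hΓ : (1 : ℝ) ≤ 2 ^ Γ := one_le_pow₀ (by norm_num)
  refine ⟨fun k hk' => ((h₀.ca k hk').sub hB).win hW (hWW.trans hWJ),
    (h₀.cc.sub hB).win hW (hWW.trans hWJ), ?_, ?_, rep, ?_, ?_, ?_, ?_, hz, hfew⟩
  · have g1 := Cl1.map2 (fun x y => x - y) (h'.cc.sub hB)
      ((h₀.cc.sub hB).win (hW.trans hWW) hWJ)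
    have g2 : Cl1 F B W' (fun s => ∑ k ∈ I.erase y, (a' s k - a s k) * β s k) := by
      refine Cl1.sum (f := fun s k => (a' s k - a s k) * β s k) fun k hk' => ?_
      have hkI := Finset.mem_of_mem_erase hk'
      exact Cl1.map2 (fun x y => x * y) (Cl1.map2 (fun x y => x - y) ((h'.ca k hkI).sub hB)
        (((h₀.ca k hkI).sub hB).win (hW.trans hWW) hWJ)) ((hk k hk').cc.sub hB)
    exact Cl1.map2 (fun x y => x + y) g1 g2
  · have g1 := Cl1.map2 (fun x y => x - y) ((h'.ca y hy).sub hB)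
      (((h₀.ca y hy).sub hB).win (hW.trans hWW) hWJ)
    have g2 : Cl1 F B W' (fun s => ∑ k ∈ I.erase y, (a' s k - a s k) * α s k) := by
      refine Cl1.sum (f := fun s k => (a' s k - a s k) * α s k) fun k hk' => ?_
      have hkI := Finset.mem_of_mem_erase hk'
      exact Cl1.map2 (fun x y => x * y) (Cl1.map2 (fun x y => x - y) ((h'.ca k hkI).sub hB)
        (((h₀.ca k hkI).sub hB).win (hW.trans hWW) hWJ))
        (((hk k hk').ca y (Finset.mem_singleton_self y)).sub hB)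
    exact Cl1.map2 (fun x y => x + y) g1 g2
  · intro ω hω
    have g1 := mul_le_mul_of_nonneg_right (hq ω hω) pM.le
    have g3 : (0 : ℝ) ≤ 2 ^ Γ * (1 / 2 ^ Nb + 1 / 2 ^ Mn) * 2 ^ Mn := by positivity
    linarith
  · intro ω hω
    have k1 := (h₀.dp ω (hB ω hω)).2.2
    have k2 := rep ω hω
    have k3 : |ow F I v a c ω| ≤ 1 / 2 ^ Nb := k1
    have k4 : |qL I y a a' α (ptr F J ω) * F.d ω y| ≤ 2 ^ Γ * (1 / 2 ^ Nb + 1 / 2 ^ Mn) := by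
      rw [abs_mul]
      have h1 := hq ω hω
      have h2 := mul_le_mul h1 (F.dir ω y) (abs_nonneg _) (by positivity)
      linarith
    have k5 : |pL I y a a' β c c' (ptr F J ω)| ≤ 2 * (2 ^ Γ * (1 / 2 ^ Nb + 1 / 2 ^ Mn)) := by
      have e1 : pL I y a a' β c c' (ptr F J ω) = ow F I v a c ω -
          qL I y a a' α (ptr F J ω) * F.d ω y - (ow F I v a c ω -
          pL I y a a' β c c' (ptr F J ω) - qL I y a a' α (ptr F J ω) * F.d ω y) := by ring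
      rw [e1]
      have h1 := abs_sub (ow F I v a c ω - qL I y a a' α (ptr F J ω) * F.d ω y)
        (ow F I v a c ω - pL I y a a' β c c' (ptr F J ω) -
          qL I y a a' α (ptr F J ω) * F.d ω y)
      have h2 := abs_sub (ow F I v a c ω) (qL I y a a' α (ptr F J ω) * F.d ω y)
      have h3 : (1 : ℝ) / 2 ^ Nb + 1 / 2 ^ Mn ≤ 2 ^ Γ * (1 / 2 ^ Nb + 1 / 2 ^ Mn) := by
        have h4 : (0 : ℝ) ≤ 1 / 2 ^ Nb + 1 / 2 ^ Mn := by positivity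
        nlinarith
      linarith
    have g1 := mul_le_mul_of_nonneg_right k5 pM.le
    linarith
  · intro ω hω k hkI
    have k1 := (h₀.dp ω (hB ω hω)).1
    have k2 := (h'.dp ω (hB ω hω)).1
    have n6 : 2 * X + m + 2 ≤ En - 1 := by omega
    have k3 : |qL I y a a' α (ptr F J ω)| ≤ 2 ^ (En - 1) := by
      refine lab_sz (fun k hk' => k1 k (Finset.mem_of_mem_erase hk'))
        (fun k hk' => k2 k (Finset.mem_of_mem_erase hk'))
        (fun k hk' => ((hk k hk').dp ω (hB ω hω)).1 y (Finset.mem_singleton_self y)) ?_ n6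
      exact (abs_sub _ _).trans (by linarith [k1 y hy, k2 y hy])
    have k4 : (2 : ℝ) ^ X ≤ 2 ^ (En - 1) := pow_le_pow_right₀ (by norm_num) (by omega)
    have k5 : (2 : ℝ) ^ En = 2 ^ (En - 1) * 2 := by
      rw [← pow_succ]
      congr 1
      omega
    have k6 := k1 k hkI
    have k7 : (0 : ℝ) ≤ 2 ^ (En - 1) := by positivity
    split_ifs
    · refine (abs_add_le _ _).trans ?_
      linarith
    · rw [add_zero]
      linarith
  · intro ω hω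
    have k1 := (h₀.dp ω (hB ω hω)).1
    have k2 := h'.dp ω (hB ω hω)
    have e1 : c (ptr F J ω) + pL I y a a' β c c' (ptr F J ω) = c' (ptr F J ω) +
        ∑ k ∈ I.erase y, (a' (ptr F J ω) k - a (ptr F J ω) k) * β (ptr F J ω) k := by
      unfold pL
      ring
    rw [e1]
    refine lab_sz (fun k hk' => k1 k (Finset.mem_of_mem_erase hk'))
      (fun k hk' => k2.1 k (Finset.mem_of_mem_erase hk'))
      (fun k hk' => ((hk k hk').dp ω (hB ω hω)).2.1) ?_ (by omega)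
    have := k2.2.1
    linarith

/-- The numbers. -/
theorem lab_num {m : ℕ} {W₀ W' N₀ N' N₁ M P x e : ℝ} (hx : 0 < x)
    (h1 : M + 4 * x ≤ N' - W') (h2 : M + 4 * x ≤ N₁ - W') (h3 : M - (N₀ - W₀) + 4 * x ≤ P)
    (h4 : 4 * x ≤ P) (h5 : 4 * x ≤ e) (hM : 0 < M) : ∃ J₁ : ℕ, ∀ J ≥ J₁,
      ⌊M * (J : ℝ)⌋₊ + 2 ≤ ⌊(N' - W' - x) * (J : ℝ)⌋₊ ∧
      ⌊M * (J : ℝ)⌋₊ + ⌊x * (J : ℝ)⌋₊ + m + 3 ≤ ⌊(N₁ - W' - x) * (J : ℝ)⌋₊ ∧
      ⌊M * (J : ℝ)⌋₊ + ⌊x * (J : ℝ)⌋₊ + 2 ≤ ⌊P * (J : ℝ)⌋₊ + ⌊(N₀ - W₀ - x) * (J : ℝ)⌋₊ ∧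
      ⌊x * (J : ℝ)⌋₊ + 3 ≤ ⌊P * (J : ℝ)⌋₊ ∧
      2 * ⌊x * (J : ℝ)⌋₊ + m + 3 ≤ ⌊e * (J : ℝ)⌋₊ := by
  obtain ⟨J₁, hJ₁⟩ := exists_nat_ge ((m + 6 : ℝ) / x)
  refine ⟨J₁, fun J hJ => ?_⟩
  have hJ0 : (0 : ℝ) ≤ J := Nat.cast_nonneg J
  have hJ1 : (J₁ : ℝ) ≤ J := by exact_mod_cast hJ
  have hm : (0 : ℝ) ≤ m := Nat.cast_nonneg m
  have hxJ : (m + 6 : ℝ) ≤ x * J := by
    have h := hJ₁.trans hJ1
    rw [div_le_iff₀ hx] at h
    linarith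
  have q1 := mul_le_mul_of_nonneg_right h1 hJ0
  have q2 := mul_le_mul_of_nonneg_right h2 hJ0
  have q3 := mul_le_mul_of_nonneg_right h3 hJ0
  have q4 := mul_le_mul_of_nonneg_right h4 hJ0
  have q5 := mul_le_mul_of_nonneg_right h5 hJ0
  have f1 : (⌊M * (J : ℝ)⌋₊ : ℝ) ≤ M * J := Nat.floor_le (by positivity)
  have f2 : (⌊x * (J : ℝ)⌋₊ : ℝ) ≤ x * J := Nat.floor_le (by positivity)
  have f3 : (N' - W' - x) * (J : ℝ) - 1 < ⌊(N' - W' - x) * (J : ℝ)⌋₊ := Nat.sub_one_lt_floor _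
  have f4 : (N₁ - W' - x) * (J : ℝ) - 1 < ⌊(N₁ - W' - x) * (J : ℝ)⌋₊ := Nat.sub_one_lt_floor _
  have f5 : P * (J : ℝ) - 1 < ⌊P * (J : ℝ)⌋₊ := Nat.sub_one_lt_floor _
  have f6 : (N₀ - W₀ - x) * (J : ℝ) - 1 < ⌊(N₀ - W₀ - x) * (J : ℝ)⌋₊ := Nat.sub_one_lt_floor _
  have f7 : e * (J : ℝ) - 1 < ⌊e * (J : ℝ)⌋₊ := Nat.sub_one_lt_floor _
  refine ⟨?_, ?_, ?_, ?_, ?_⟩ <;> rw [← Nat.cast_le (α := ℝ)] <;> push_cast <;> linarith

/-- **The data of a gain from two labels.** -/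
theorem gainR_of_lab {S : PCl m} {C₀ : ℝ} (htm : TmC S C₀) {y : Fin m}
    (hact : Pool.MIC6.ActF S y) {I : Finset (Fin m)} (hy : y ∈ I) {v : Fin m}
    {W₀ W W' N₀ N' N₁ M P b : ℝ} (hW₀ : W₀ ≤ W) (hWW : W ≤ W') (hW1' : W' ≤ 1) (hM : 0 < M)
    (h₀ : HasA S I v W₀ N₀) (h' : HasA S I v W' N')
    (hk : ∀ k ∈ I.erase y, HasA S {y} k W' N₁) (hN' : M < N' - W') (hN₁ : M < N₁ - W')
    (hP0 : 0 < P) (hP : M - (N₀ - W₀) < P) {x₀ : ℝ} (hx₀ : 0 < x₀)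
    (hfew : ∀ x, 0 < x → x ≤ x₀ → Bas S (fun J F A =>
      ∀ (a : PtT F → Fin m → ℝ) (c : PtT F → ℝ),
      ClA F A I v ⌊W₀ * J⌋₊ ⌊x * J⌋₊ ⌊(N₀ - W₀ - x) * J⌋₊ a c →
      ∃ (V : Type) (z : F.Ω → V), Cl2 (ptr F J) (slam F ⌊W * J⌋₊) A z ∧
        CH (Pool.Agent.H49.Ent.cond F.p A True)
          (fun ω => ⌊(2 : ℝ) ^ ⌊M * J⌋₊ * ow F I v a c ω⌋)
          (fun ω => (F.D ⌊P * J⌋₊ ω y, (z ω, F.W ω))) ≤ b * J)) :
    ∀ e₀ : ℝ, 0 < e₀ → ∃ e : ℝ, 0 < e ∧ e ≤ e₀ ∧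
      Bas S (fun J F A => ∃ (B : F.Ω → Prop) (a : PtT F → Fin m → ℝ) (c p q : PtT F → ℝ)
        (V : Type) (z : F.Ω → V), Sub B A ∧ 1 / 2 * Pe F.p A ≤ Pe F.p B ∧
        GainR F y I v ⌊W * J⌋₊ ⌊W' * J⌋₊ ⌊e * J⌋₊ ⌊M * J⌋₊ ⌊P * J⌋₊ ⌊P * J⌋₊ (b * J) B
          a c p q z) := by
  classical
  intro e₀ he₀
  refine ⟨e₀, he₀, le_rfl, ?_⟩
  obtain ⟨θ, hθ⟩ : ∃ θ, θ = min (min (N' - W' - M) (N₁ - W' - M))
    (min (P - (M - (N₀ - W₀))) (min P e₀)) := ⟨_, rfl⟩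
  have hθ0 : 0 < θ := by
    rw [hθ]
    refine lt_min (lt_min (by linarith) (by linarith)) (lt_min (by linarith) (lt_min hP0 he₀))
  have t1 : θ ≤ N' - W' - M := by rw [hθ]; exact (min_le_left _ _).trans (min_le_left _ _)
  have t2 : θ ≤ N₁ - W' - M := by rw [hθ]; exact (min_le_left _ _).trans (min_le_right _ _)
  have t3 : θ ≤ P - (M - (N₀ - W₀)) := by
    rw [hθ]; exact (min_le_right _ _).trans (min_le_left _ _)
  have t4 : θ ≤ P := by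
    rw [hθ]; exact (min_le_right _ _).trans ((min_le_right _ _).trans (min_le_left _ _))
  have t5 : θ ≤ e₀ := by
    rw [hθ]; exact (min_le_right _ _).trans ((min_le_right _ _).trans (min_le_right _ _))
  obtain ⟨x, hx⟩ : ∃ x, x = min x₀ (θ / 4) := ⟨_, rfl⟩
  have hx0 : 0 < x := by rw [hx]; exact lt_min hx₀ (by linarith)
  have hxx : x ≤ x₀ := by rw [hx]; exact min_le_left _ _
  have hxθ : 4 * x ≤ θ := by
    have : x ≤ θ / 4 := by rw [hx]; exact min_le_right _ _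
    linarith
  obtain ⟨J₁, hnum⟩ := lab_num (m := m) (W₀ := W₀) (W' := W') (N₀ := N₀) (N' := N') (N₁ := N₁)
    (M := M) (P := P) (e := e₀) hx0 (by linarith) (by linarith) (by linarith) (by linarith)
    (by linarith) hM
  have hkk : Bas S (fun J F A => ∀ k : Fin m, k ∈ I.erase y →
      ∃ (α : PtT F → Fin m → ℝ) (β : PtT F → ℝ),
        ClA F A {y} k ⌊W' * J⌋₊ ⌊x * J⌋₊ ⌊(N₁ - W' - x) * J⌋₊ α β) := by
    refine Bas.fin' fun k => ?_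
    by_cases hkI : k ∈ I.erase y
    · exact Bas.mono 0 (hk k hkI x hx0) fun J _ F A h _ => h
    · exact ⟨1, one_pos, 0, fun J _ F A _ h => absurd h hkI⟩
  obtain ⟨τf, hτf, Jf, hf⟩ := hfew x hx0 hxx
  obtain ⟨τs, hτs, Js, hs⟩ := spr_cls htm hact hx0 (η := 1 / 2) (by norm_num)
  obtain ⟨τl, hτl, Jl, hl⟩ := ((h₀ x hx0).and (h' x hx0)).and hkk
  obtain ⟨J₂, hJ₂⟩ := exists_nat_ge (Real.log (1 / (1 / 2)) / (τf / 2))
  refine ⟨min (τf / 2) (min τs τl), lt_min (by linarith) (lt_min hτs hτl),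
    J₁ + Jf + Js + Jl + J₂, ?_⟩
  intro J hJ F A hA
  have a1 : S.St (τf / 2) J F A := S.mono (min_le_left _ _) hA
  have a2 : S.St τs J F A := S.mono ((min_le_right _ _).trans (min_le_left _ _)) hA
  have a3 : S.St τl J F A := S.mono ((min_le_right _ _).trans (min_le_right _ _)) hA
  have hA0 := pos_of htm _ J F A a1
  obtain ⟨⟨⟨a, c, hac⟩, a', c', hac'⟩, hside⟩ := hl J (by omega) F A a3
  have hside' : ∀ k : Fin m, ∃ (α : PtT F → ℝ) (β : PtT F → ℝ), k ∈ I.erase y →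
      ClA F A {y} k ⌊W' * J⌋₊ ⌊x * J⌋₊ ⌊(N₁ - W' - x) * J⌋₊ (fun s _ => α s) β := by
    intro k
    by_cases hkI : k ∈ I.erase y
    · obtain ⟨α, β, h⟩ := hside k hkI
      refine ⟨fun s => α s y, β, fun _ => ⟨fun ω hω => ?_, fun k' hk' => ?_, h.cc⟩⟩
      · obtain ⟨g1, g2, g3⟩ := h.dp ω hω
        refine ⟨fun k' _ => g1 y (Finset.mem_singleton_self y), g2, ?_⟩
        rw [Finset.sum_singleton] at g3 ⊢
        exact g3
      · exact h.ca y (Finset.mem_singleton_self y)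
    · exact ⟨fun _ => 0, fun _ => 0, fun h => absurd h hkI⟩
  choose α β hαβ using hside'
  obtain ⟨n1, n2, n3, n4, n5⟩ := hnum J (by omega)
  have jr : ((J₁ + Jf + Js + Jl + J₂ : ℕ) : ℝ) ≤ J := by exact_mod_cast hJ
  push_cast at jr
  have m1 : (0 : ℝ) ≤ J₁ := Nat.cast_nonneg _
  have m2 : (0 : ℝ) ≤ Jf := Nat.cast_nonneg _
  have m3 : (0 : ℝ) ≤ Js := Nat.cast_nonneg _
  have m4 : (0 : ℝ) ≤ Jl := Nat.cast_nonneg _
  have hJ0 : (0 : ℝ) ≤ J := Nat.cast_nonneg J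
  have q1 : Real.log (1 / (1 / 2)) ≤ τf / 2 * J := by
    have h1 : Real.log (1 / (1 / 2)) / (τf / 2) ≤ (J : ℝ) := by linarith
    rw [div_le_iff₀ (by linarith)] at h1
    linarith
  have w1 : ⌊W₀ * (J : ℝ)⌋₊ ≤ ⌊W * J⌋₊ :=
    Nat.floor_le_floor (mul_le_mul_of_nonneg_right hW₀ hJ0)
  have w2 : ⌊W * (J : ℝ)⌋₊ ≤ ⌊W' * J⌋₊ :=
    Nat.floor_le_floor (mul_le_mul_of_nonneg_right hWW hJ0)
  have w3 : ⌊W' * (J : ℝ)⌋₊ ≤ J := by
    refine Nat.floor_le_of_le ?_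
    nlinarith
  -- the bounded slope
  obtain ⟨B, b1, b2, b3⟩ := hs J (by omega) F A a2
    (pL I y a a' (fun s k => β k s) c c') (qL I y a a' fun s k => α k s)
    (1 / 2 ^ ⌊(N₀ - W₀ - x) * (J : ℝ)⌋₊ + 1 / 2 ^ ⌊M * (J : ℝ)⌋₊) (by positivity) (by
      intro ω hω
      have k1 := hac.dp ω hω
      have k2 := hac'.dp ω hω
      have k3 := lab_pt (I := I) (y := y) hy (a := a (ptr F J ω)) (a' := a' (ptr F J ω))
        (α := fun k => α k (ptr F J ω)) (β := fun k => β k (ptr F J ω))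
        (d := fun k => F.d ω k) (c := c (ptr F J ω))
        (c' := c' (ptr F J ω)) (dv := F.d ω v) k1.1 k2.1 k2.2.2 (fun k hk' => by
          have h1 := (((hαβ k hk').dp) ω hω).2.2
          rw [Finset.sum_singleton] at h1
          exact h1)
      have hm : (m : ℝ) ≤ 2 ^ m := by
        have : m ≤ 2 ^ m := Nat.lt_two_pow_self.le
        exact_mod_cast this
      have g1 : (1 : ℝ) / 2 ^ ⌊(N' - W' - x) * (J : ℝ)⌋₊ ≤ 1 / 2 ^ (⌊M * (J : ℝ)⌋₊ + 2) :=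
        one_div_le_one_div_of_le (by positivity) (pow_le_pow_right₀ (by norm_num) n1)
      have g2 : (1 : ℝ) / 2 ^ ⌊(N₁ - W' - x) * (J : ℝ)⌋₊ ≤
          1 / 2 ^ (⌊M * (J : ℝ)⌋₊ + ⌊x * (J : ℝ)⌋₊ + m + 3) :=
        one_div_le_one_div_of_le (by positivity) (pow_le_pow_right₀ (by norm_num) n2)
      have g3 : (m : ℝ) * (2 * 2 ^ ⌊x * (J : ℝ)⌋₊ * (1 / 2 ^ ⌊(N₁ - W' - x) * (J : ℝ)⌋₊)) ≤
          2 ^ m * (2 * 2 ^ ⌊x * (J : ℝ)⌋₊ *
            (1 / 2 ^ (⌊M * (J : ℝ)⌋₊ + ⌊x * (J : ℝ)⌋₊ + m + 3))) := by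
        gcongr
      have g4 : (2 : ℝ) ^ m * (2 * 2 ^ ⌊x * (J : ℝ)⌋₊ *
          (1 / 2 ^ (⌊M * (J : ℝ)⌋₊ + ⌊x * (J : ℝ)⌋₊ + m + 3))) =
          1 / 2 ^ ⌊M * (J : ℝ)⌋₊ / 4 := by
        rw [pow_add, pow_add, pow_add]
        field_simp
        norm_num
      have g5 : (1 : ℝ) / 2 ^ (⌊M * (J : ℝ)⌋₊ + 2) = 1 / 2 ^ ⌊M * (J : ℝ)⌋₊ / 4 := by
        rw [pow_add]
        field_simp
        norm_num
      have g6 : (0 : ℝ) ≤ 1 / 2 ^ ⌊M * (J : ℝ)⌋₊ := by positivity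
      have k4 : |ow F I v a c ω| ≤ 1 / 2 ^ ⌊(N₀ - W₀ - x) * (J : ℝ)⌋₊ := k1.2.2
      have k5 : |ow F I v a c ω - pL I y a a' (fun s k => β k s) c c' (ptr F J ω) -
          qL I y a a' (fun s k => α k s) (ptr F J ω) * F.d ω y| ≤
          1 / 2 ^ ⌊M * (J : ℝ)⌋₊ := by
        refine (show _ ≤ _ from k3).trans ?_
        linarith
      have e1 : pL I y a a' (fun s k => β k s) c c' (ptr F J ω) +
          qL I y a a' (fun s k => α k s) (ptr F J ω) * F.d ω y = ow F I v a c ω -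
          (ow F I v a c ω - pL I y a a' (fun s k => β k s) c c' (ptr F J ω) -
          qL I y a a' (fun s k => α k s) (ptr F J ω) * F.d ω y) := by ring
      rw [e1]
      exact (abs_sub _ _).trans (add_le_add k4 k5))
  have hBS : S.St τf J F B := by
    have hS' := res_of (by linarith : (0 : ℝ) ≤ τf / 2) a1 b1
      (by norm_num : (0 : ℝ) < 1 / (1 / 2)) q1 (by linarith)
    have e1 : 2 * (τf / 2) = τf := by ring
    rwa [e1] at hS'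
  obtain ⟨V, z, hz, hfw⟩ := hf J (by omega) F B hBS a c (hac.sub b1)
  exact ⟨B, a, c, _, _, V, z, b1, by linarith, lab_fam b1 hy w1 w2 w3 hac hac'
    (fun k hk' => hαβ k hk') n1 n2 n3 n4 n5 b3 hz hfw⟩

/-- **A gain is impossible**, from labels. -/
theorem gain_lab {S : PCl m} (hS : S.Ne) {C₀ : ℝ} (htm : TmC S C₀) {y : Fin m}
    (hact₀ : Pool.MIC6.ActF S y) {I : Finset (Fin m)} (hy : y ∈ I) {v : Fin m}
    {W₀ W W' N₀ N' N₁ M P x b c₁ η η' r s : ℝ} (hW₀ : W₀ ≤ W) (hW0 : 0 ≤ W)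
    (hW1 : W ≤ 1) (hWW : W ≤ W') (hW1' : W' ≤ 1)
    (hη : RNum S (fun J F => ptr F J) (vg W) η) (hη' : RNum S (fun J F => ptr F J) (vg W') η')
    (hx : 0 ≤ x) (hb : 0 < b) (hbc : 100 * b ≤ c₁) (hfr : FrD S y P W W' b)
    (hact : Bas S (fun J F A => c₁ * J ≤
      CH (Pool.Agent.H49.Ent.cond F.p A True) (fun ω => F.D ⌊x * J⌋₊ ω y) (ptr F J)))
    {L : Finset (Fin m) → Fin m → ℝ → ℝ → ℝ} (hL : LamW S L) (hs : 0 < s)
    (hLW : W ≤ L I v W r) (hLs : L I v W r + 2 * s ≤ 1)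
    (hM : L I v W r - W + s + 2 * x < M) (h₀ : HasA S I v W₀ N₀) (h' : HasA S I v W' N')
    (hk : ∀ k ∈ I.erase y, HasA S {y} k W' N₁) (hN' : M < N' - W') (hN₁ : M < N₁ - W')
    (hP0 : 0 < P) (hP : M - (N₀ - W₀) < P) {x₀ : ℝ} (hx₀ : 0 < x₀)
    (hfew : ∀ x, 0 < x → x ≤ x₀ → Bas S (fun J F A =>
      ∀ (a : PtT F → Fin m → ℝ) (c : PtT F → ℝ),
      ClA F A I v ⌊W₀ * J⌋₊ ⌊x * J⌋₊ ⌊(N₀ - W₀ - x) * J⌋₊ a c →
      ∃ (V : Type) (z : F.Ω → V), Cl2 (ptr F J) (slam F ⌊W * J⌋₊) A z ∧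
        CH (Pool.Agent.H49.Ent.cond F.p A True)
          (fun ω => ⌊(2 : ℝ) ^ ⌊M * J⌋₊ * ow F I v a c ω⌋)
          (fun ω => (F.D ⌊P * J⌋₊ ω y, (z ω, F.W ω))) ≤ b * J)) : False :=
  gain_rate hS htm hy hW0 hW1 hWW hW1' hη hη' hx le_rfl hP0.le hb hbc hfr hact hL hs hLW hLs hM
    (by norm_num : (0 : ℝ) < 1 / 2)
    (gainR_of_lab htm hact₀ hy hW₀ hWW hW1' (by linarith) h₀ h' hk hN' hN₁ hP0 hP hx₀ hfew)

end Pool.GN97
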