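import Pool.Agent.H78.KST.OUT
import Pool.Agent.H62.OWN.Jvc
import Pool.Agent.H97.MM.Cls2

/-!
# A gain of the own velocity: entropies

`supp_pair`, `supp_sel`: if `E` is almost as full given the exact point `z` as given the record `R`,
then for a selected point of each cell of `R` the values of `E` over this point have a large mass in
the cell. `time_out`: the time can be removed from a condition when everything is a function of the
line and of the window. `likely`: on an event which is not too small a quantity with few bits is a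
function of the datum.
-/

set_option autoImplicit false

namespace Pool.GN97

open Finset Real
open Pool.Agent.H49.Ent Pool.Agent.H32.Dense Pool.STK Pool.KA Pool.KSAT Pool.K2S Pool.PB Pool.GEN
open Pool.MM97
open Pool.PR46 (mi_sym)
open Pool.KM7 (P2 P2_pos)
open Pool.JVE (pe_sum pair_sel)

section law

variable {Ω α β γ : Type} [Fintype Ω] {p : Ω → ℝ}

/-- **The support over an exact point**, for two samples of one cell. -/
theorem supp_pair (hp : IsLaw p) (E : Ω → α) (R : Ω → β) (z : Ω → γ) (hR : Det p z R) :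
    Real.exp (-(CH p E R - CH p E z)) ≤ Pe (P2 p R) (fun x => 0 < p x.2 ∧ R x.1 = R x.2 ∧
      ∃ ω, 0 < p ω ∧ z ω = z x.2 ∧ E ω = E x.1) := by
  classical
  have h0 := hp.nonneg
  obtain ⟨C, hC⟩ : ∃ C : Ω → Ω → Prop, C = fun a b => 0 < p b ∧ R a = R b ∧
    ∃ ω, 0 < p ω ∧ z ω = z b ∧ E ω = E a := ⟨_, rfl⟩
  obtain ⟨b, hb⟩ : ∃ b, b = Pe (P2 p R) (fun x => C x.1 x.2) := ⟨_, rfl⟩
  have hgoal : Pe (P2 p R) (fun x => 0 < p x.2 ∧ R x.1 = R x.2 ∧
      ∃ ω, 0 < p ω ∧ z ω = z x.2 ∧ E ω = E x.1) = b := by rw [hb, hC]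
  rw [hgoal]
  obtain ⟨lE, hlE⟩ : ∃ l : Ω → ℝ, l = fun ω => law p (fun ω => (E ω, R ω)) (E ω, R ω) := ⟨_, rfl⟩
  obtain ⟨lR, hlR⟩ : ∃ l : Ω → ℝ, l = fun ω => law p R (R ω) := ⟨_, rfl⟩
  obtain ⟨lz, hlz⟩ : ∃ l : Ω → ℝ, l = fun ω => law p z (z ω) := ⟨_, rfl⟩
  obtain ⟨lB, hlB⟩ : ∃ l : Ω → ℝ, l = fun ω => law p (fun ω => (E ω, z ω)) (E ω, z ω) := ⟨_, rfl⟩
  have pE : ∀ ω, 0 < p ω → 0 < lE ω := fun ω h => by
    rw [hlE]; exact law_pos h0 (fun ω => (E ω, R ω)) h
  have pR : ∀ ω, 0 < p ω → 0 < lR ω := fun ω h => by rw [hlR]; exact law_pos h0 R h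
  have pz : ∀ ω, 0 < p ω → 0 < lz ω := fun ω h => by rw [hlz]; exact law_pos h0 z h
  have pB : ∀ ω, 0 < p ω → 0 < lB ω := fun ω h => by
    rw [hlB]; exact law_pos h0 (fun ω => (E ω, z ω)) h
  have nR : ∀ ω, 0 ≤ lR ω := fun ω => by rw [hlR]; exact law_nonneg h0 _ _
  obtain ⟨r, hr⟩ : ∃ r : Ω → ℝ, r = fun ω => lE ω * lz ω / (lR ω * lB ω) := ⟨_, rfl⟩
  have pr : ∀ ω, 0 < p ω → 0 < r ω := fun ω h => by
    rw [hr]
    exact div_pos (mul_pos (pE ω h) (pz ω h)) (mul_pos (pR ω h) (pB ω h))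
  -- the difference of the entropies
  have e1 : CH p E z - CH p E R = ∑ ω, p ω * Real.log (r ω) := by
    have h1 : ∀ ω, p ω * Real.log (r ω) = p ω * Real.log (lE ω) + p ω * Real.log (lz ω) -
        p ω * Real.log (lR ω) - p ω * Real.log (lB ω) := by
      intro ω
      rcases (h0 ω).eq_or_lt with h | h
      · rw [← h]
        ring
      · rw [hr]
        show p ω * Real.log (lE ω * lz ω / (lR ω * lB ω)) = _
        rw [Real.log_div (mul_pos (pE ω h) (pz ω h)).ne' (mul_pos (pR ω h) (pB ω h)).ne',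
          Real.log_mul (pE ω h).ne' (pz ω h).ne', Real.log_mul (pR ω h).ne' (pB ω h).ne']
        ring
    rw [Finset.sum_congr rfl fun ω _ => h1 ω, Finset.sum_sub_distrib, Finset.sum_sub_distrib,
      Finset.sum_add_distrib]
    unfold CH H
    rw [hlE, hlz, hlR, hlB]
    ring
  -- the sum of the ratios
  have e2 : ∑ ω, p ω * r ω ≤ b := by
    obtain ⟨K, hK⟩ : ∃ K : Ω → Ω → Ω → ℝ, K = fun a b ω =>
      if E a = E ω ∧ R a = R ω ∧ z b = z ω then p ω * p a * p b / (lR ω * lB ω) else 0 := ⟨_, rfl⟩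
    have h1 : ∀ ω, p ω * r ω = ∑ a, ∑ b, K a b ω := by
      intro ω
      have h2 : lE ω = ∑ a, if (E a, R a) = (E ω, R ω) then p a else 0 := by
        rw [hlE]
        unfold law
        exact Finset.sum_congr rfl fun _ _ => by congr
      have h3 : lz ω = ∑ b, if z b = z ω then p b else 0 := by
        rw [hlz]
        unfold law
        exact Finset.sum_congr rfl fun _ _ => by congr
      rw [hr]
      show p ω * (lE ω * lz ω / (lR ω * lB ω)) = _
      rw [h2, h3, Finset.sum_mul_sum, Finset.sum_div, Finset.mul_sum]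
      refine Finset.sum_congr rfl fun a _ => ?_
      rw [Finset.sum_div, Finset.mul_sum]
      refine Finset.sum_congr rfl fun b _ => ?_
      rw [hK]
      by_cases ha : E a = E ω ∧ R a = R ω
      · by_cases hb' : z b = z ω
        · rw [if_pos (Prod.ext_iff.2 ⟨ha.1, ha.2⟩), if_pos hb']
          simp only [ha.1, ha.2, hb', and_self, if_true]
          ring
        · rw [if_neg hb']
          simp only [hb', and_false, if_false, mul_zero, zero_div]
      · rw [if_neg (fun h => ha ⟨(Prod.ext_iff.1 h).1, (Prod.ext_iff.1 h).2⟩)]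
        have : ¬ (E a = E ω ∧ R a = R ω ∧ z b = z ω) := fun h => ha ⟨h.1, h.2.1⟩
        simp only [this, if_false, zero_mul, zero_div, mul_zero]
    have h4 : ∑ ω, p ω * r ω = ∑ a, ∑ b, ∑ ω, K a b ω := by
      rw [Finset.sum_congr rfl fun ω _ => h1 ω, Finset.sum_comm]
      exact Finset.sum_congr rfl fun a _ => Finset.sum_comm
    rw [h4, hb, pe_sum, Fintype.sum_prod_type]
    refine Finset.sum_le_sum fun a _ => Finset.sum_le_sum fun c _ => ?_
    have hn : ∀ ω, 0 ≤ K a c ω := fun ω => by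
      rw [hK]
      show 0 ≤ if E a = E ω ∧ R a = R ω ∧ z c = z ω then p ω * p a * p c / (lR ω * lB ω) else 0
      split_ifs
      · have : 0 ≤ lB ω := by rw [hlB]; exact law_nonneg h0 _ _
        exact div_nonneg (mul_nonneg (mul_nonneg (h0 _) (h0 _)) (h0 _)) (mul_nonneg (nR ω) this)
      · exact le_rfl
    by_cases hz : ∀ ω, K a c ω = 0
    · rw [Finset.sum_eq_zero fun ω _ => hz ω]
      split_ifs
      · exact glue_nonneg h0 h0 _
      · exact le_rfl
    push Not at hz
    obtain ⟨ω₀, hω₀⟩ := hz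
    have hk : E a = E ω₀ ∧ R a = R ω₀ ∧ z c = z ω₀ := by
      by_contra hcon
      refine hω₀ ?_
      rw [hK]
      show (if E a = E ω₀ ∧ R a = R ω₀ ∧ z c = z ω₀ then _ else _) = _
      rw [if_neg hcon]
    have hpp : 0 < p ω₀ ∧ 0 < p a ∧ 0 < p c := by
      have h5 : p ω₀ * p a * p c ≠ 0 := by
        intro h6
        refine hω₀ ?_
        rw [hK]
        show (if E a = E ω₀ ∧ R a = R ω₀ ∧ z c = z ω₀ then
          p ω₀ * p a * p c / (lR ω₀ * lB ω₀) else 0) = 0
        rw [h6, zero_div, ite_self]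
      have h6 : p ω₀ ≠ 0 := fun h => h5 (by rw [h]; ring)
      have h7 : p a ≠ 0 := fun h => h5 (by rw [h]; ring)
      have h8 : p c ≠ 0 := fun h => h5 (by rw [h]; ring)
      exact ⟨lt_of_le_of_ne (h0 _) h6.symm, lt_of_le_of_ne (h0 _) h7.symm,
        lt_of_le_of_ne (h0 _) h8.symm⟩
    have hRc : R ω₀ = R c := hR ω₀ c hpp.1 hpp.2.2 hk.2.2.symm
    have hCac : C a c := by
      rw [hC]
      exact ⟨hpp.2.2, hk.2.1.trans hRc, ω₀, hpp.1, hk.2.2.symm, hk.1.symm⟩
    rw [if_pos hCac]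
    have h9 : P2 p R (a, c) = p a * p c / lR a := by
      unfold P2 glue
      show (if R a = R c then p a * p c / law p R (R a) else 0) = _
      rw [if_pos (hk.2.1.trans hRc), hlR]
    rw [h9]
    have lBe : 0 < lB ω₀ := pB ω₀ hpp.1
    have h10 : ∀ ω, K a c ω ≤ p a * p c / lR a *
        ((if (E ω, z ω) = (E ω₀, z ω₀) then p ω else 0) / lB ω₀) := by
      intro ω
      have h13 : 0 ≤ p a * p c / lR a * ((if (E ω, z ω) = (E ω₀, z ω₀) then p ω else 0) /
          lB ω₀) := by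
        refine mul_nonneg (div_nonneg (mul_nonneg (h0 _) (h0 _)) (nR _)) (div_nonneg ?_ lBe.le)
        split_ifs
        · exact h0 ω
        · exact le_rfl
      rw [hK]
      show (if E a = E ω ∧ R a = R ω ∧ z c = z ω then p ω * p a * p c / (lR ω * lB ω) else 0) ≤ _
      by_cases h11 : E a = E ω ∧ R a = R ω ∧ z c = z ω
      · have h12 : (E ω, z ω) = (E ω₀, z ω₀) :=
          Prod.ext_iff.2 ⟨h11.1.symm.trans hk.1, h11.2.2.symm.trans hk.2.2⟩
        have h14 : lR ω = lR a := by rw [hlR]; show law p R (R ω) = law p R (R a); rw [h11.2.1]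
        have h15 : lB ω = lB ω₀ := by
          rw [hlB]
          show law p _ (E ω, z ω) = law p _ (E ω₀, z ω₀)
          rw [h12]
        rw [if_pos h11, if_pos h12, h14, h15]
        refine le_of_eq ?_
        rw [div_mul_div_comm]
        congr 1
        ring
      · rw [if_neg h11]
        exact h13
    refine (Finset.sum_le_sum fun ω _ => h10 ω).trans ?_
    rw [← Finset.mul_sum, ← Finset.sum_div]
    have h16 : (∑ ω, if (E ω, z ω) = (E ω₀, z ω₀) then p ω else 0) = lB ω₀ := by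
      rw [hlB]
      unfold law
      exact Finset.sum_congr rfl fun _ _ => by congr
    rw [h16, div_self lBe.ne', mul_one]
  -- Jensen
  have hex : ∃ ω, 0 < p ω := by
    by_contra hcon
    push Not at hcon
    have h1 := hp.sum_one
    rw [Finset.sum_eq_zero fun ω _ => le_antisymm (hcon ω) (h0 ω)] at h1
    exact zero_ne_one h1
  have hb0 : 0 < b := by
    obtain ⟨ω, hω⟩ := hex
    refine lt_of_lt_of_le ?_ e2
    refine lt_of_lt_of_le (mul_pos hω (pr ω hω)) ?_
    refine Finset.single_le_sum (f := fun ω => p ω * r ω) (fun ω' _ => ?_) (Finset.mem_univ ω)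
    rcases (h0 ω').eq_or_lt with h | h
    · show 0 ≤ p ω' * r ω'
      rw [← h, zero_mul]
    · exact (mul_pos h (pr ω' h)).le
  have e3 : ∑ ω, p ω * Real.log (r ω) ≤ Real.log b := by
    have h1 : ∀ ω, p ω * Real.log (r ω) ≤ p ω * r ω / b - p ω + p ω * Real.log b := by
      intro ω
      rcases (h0 ω).eq_or_lt with h | h
      · rw [← h]
        simp
      · have h2 := Real.log_le_sub_one_of_pos (div_pos (pr ω h) hb0)
        rw [Real.log_div (pr ω h).ne' hb0.ne'] at h2
        have h3 := mul_le_mul_of_nonneg_left h2 h.le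
        have h4 : p ω * (r ω / b - 1) = p ω * r ω / b - p ω := by ring
        rw [h4] at h3
        linarith
    refine (Finset.sum_le_sum fun ω _ => h1 ω).trans ?_
    rw [Finset.sum_add_distrib, Finset.sum_sub_distrib, ← Finset.sum_div, ← Finset.sum_mul,
      hp.sum_one]
    have h5 : (∑ ω, p ω * r ω) / b ≤ 1 := (div_le_one hb0).2 e2
    linarith
  have e4 : -(CH p E R - CH p E z) ≤ Real.log b := by
    rw [neg_sub, e1]
    exact e3
  calc Real.exp (-(CH p E R - CH p E z)) ≤ Real.exp (Real.log b) := Real.exp_le_exp.2 e4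
    _ = b := Real.exp_log hb0

/-- **A selected point of each cell.** -/
theorem supp_sel (hp : IsLaw p) (E : Ω → α) (R : Ω → β) (z : Ω → γ) (hR : Det p z R) :
    ∃ sel : β → Ω, Real.exp (-(CH p E R - CH p E z)) ≤ Pe p (fun ω => 0 < p (sel (R ω)) ∧
      R ω = R (sel (R ω)) ∧ ∃ ω', 0 < p ω' ∧ z ω' = z (sel (R ω)) ∧ E ω' = E ω) := by
  have hne : Nonempty Ω := by
    by_contra hcon
    rw [not_nonempty_iff] at hcon
    have h2 := hp.sum_one
    rw [Finset.univ_eq_empty, Finset.sum_empty] at h2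
    exact zero_ne_one h2
  obtain ⟨sel, hsel⟩ := pair_sel hp.nonneg R (fun a b => 0 < p b ∧ R a = R b ∧
    ∃ ω, 0 < p ω ∧ z ω = z b ∧ E ω = E a)
  exact ⟨sel, (supp_pair hp E R z hR).trans hsel⟩

/-- **The most likely value.** -/
theorem likely (hp : IsLaw p) (X : Ω → α) (Y : Ω → β) :
    ∃ φ : β → α, Real.exp (-(CH p X Y)) ≤ Pe p (fun ω => X ω = φ (Y ω)) := by
  have h1 : Pe p (fun _ : Ω => True) = 1 := by
    rw [pe_sum]
    simp only [if_true]
    exact hp.sum_one
  obtain ⟨φ, hφ⟩ := Pool.KST.out_select hp (fun _ => True) X Y (by rw [h1]; exact one_pos)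
  refine ⟨φ, ?_⟩
  rw [h1, one_mul, div_one] at hφ
  refine hφ.trans (le_of_eq ?_)
  congr 1
  funext ω
  exact propext ⟨fun h => h.2, fun h => ⟨trivial, h⟩⟩

end law

variable {m J : ℕ}

/-- **The time leaves the condition.** -/
theorem time_out {F : Fam m J} {p : F.Ω → ℝ} (hp : IsLaw p) {W : ℕ} (hW : W ≤ J) {α β : Type}
    {X : F.Ω → α} {Y : F.Ω → β} (hX : Det p (slam F W) X) (hY : Det p (slam F W) Y)
    (hY1 : Det p Y (F.T1 W)) (hY2 : Det p Y F.Z) {ψ : ℝ}
    (hT : ((J : ℝ) - W) * Real.log 2 - ψ ≤ CH p F.T (slam F W)) :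
    CH p X Y ≤ CH p X (fun ω => (Y ω, F.W ω)) + ψ := by
  have h0 := hp.nonneg
  have h1 := mi_sym h0 X F.T Y
  have h2 := T_le hp hW Y hY1
  have h3 : CH p F.T (slam F W) ≤ CH p F.T (fun ω => (X ω, Y ω)) :=
    CH_mono_cond h0 fun ω ω' a b e => Prod.ext_iff.2 ⟨hX ω ω' a b e, hY ω ω' a b e⟩
  have h4 : CH p X (fun ω => (F.T ω, Y ω)) ≤ CH p X (fun ω => (Y ω, F.W ω)) := by
    refine CH_mono_cond h0 fun ω ω' a b e => ?_
    have e1 : F.T ω = F.T ω' := (Prod.ext_iff.1 e).1
    have e2 : Y ω = Y ω' := (Prod.ext_iff.1 e).2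
    exact Prod.ext_iff.2 ⟨e2, Prod.ext_iff.2 ⟨e1, hY2 ω ω' a b e2⟩⟩
  linarith

end Pool.GN97
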