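import Pool.Agent.H97.GAIN.Law
import Pool.Agent.H97.MM.Cls4
import Pool.Agent.H72.OWN.Vis
import Pool.Agent.H27.TOP.Rt

/-!
# A gain of the own velocity: definitions, and the step for one family

`SprI`: the velocities of the coordinates `I₀` are spread at the exact point. `FrX`: their digits
are free of the exact point. `GainD`: the velocity of `v` relative to a closed affine label is affine
in the velocities of `I₀` at the exact point, and up to `2 ^ (-M)` it is a function of the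
velocities and of a closed function. `sel_fam`: on an event which is not too small the value of `E`
is also a value over a selected point of the cell. `gain_one`: then the affine functions of the two
points are near at the sample.
-/

set_option autoImplicit false

namespace Pool.GN97

open Finset Real
open Pool.Agent.H49.Ent Pool.Agent.H32.Dense Pool.STK Pool.KA Pool.KSAT Pool.K2S Pool.PB Pool.GEN
open Pool.S6C Pool.LA91 Pool.RCD Pool.OWN72
open Pool.JVE (DpI)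
open Pool.STAT (cond_supp)

variable {m J : ℕ}

/-- **The velocities of `I₀` are spread** at the exact point. -/
def SprI (S : PCl m) (I₀ : Finset (Fin m)) : Prop :=
  ∀ γ η : ℝ, 0 < γ → 0 < η → Bas S (fun J F A => ∀ (f : PtT F → ℝ) (g : PtT F → Fin m → ℝ)
    (E : ℝ), 0 < E →
    (∀ ω, A ω → |f (ptr F J ω) + ∑ k ∈ I₀, g (ptr F J ω) k * F.d ω k| ≤ E) →
    ∃ B : F.Ω → Prop, Sub B A ∧ (1 - η) * Pe F.p A ≤ Pe F.p B ∧
      ∀ ω, B ω → ∀ k ∈ I₀, |g (ptr F J ω) k| ≤ 2 ^ ⌊γ * J⌋₊ * E)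

/-- One active coordinate. -/
theorem spr_one {S : PCl m} {C₀ : ℝ} (htm : TmC S C₀) {y : Fin m} (hact : Pool.MIC6.ActF S y) :
    SprI S {y} := by
  intro γ η hγ hη
  refine Bas.mono 0 (spr_cls htm hact hγ hη) ?_
  rintro J - F A h f g E hE hfg
  obtain ⟨B, b1, b2, b3⟩ := h f (fun p => g p y) E hE (fun ω hω => by
    have h1 := hfg ω hω
    rwa [Finset.sum_singleton] at h1)
  exact ⟨B, b1, b2, fun ω hω k hk => by rw [Finset.mem_singleton.1 hk]; exact b3 ω hω⟩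

/-- The digits of the velocities of `I₀`. -/
noncomputable def DI (F : Fam m J) (I₀ : Finset (Fin m)) (P : ℕ) (ω : F.Ω) : Fin m → ℤ := by
  classical exact fun k => if k ∈ I₀ then F.D P ω k else 0

theorem DI_eq {F : Fam m J} {I₀ : Finset (Fin m)} {P : ℕ} {ω ω' : F.Ω}
    (h : DI F I₀ P ω = DI F I₀ P ω') {k : Fin m} (hk : k ∈ I₀) : F.D P ω k = F.D P ω' k := by
  classical
  have h1 := congrFun h k
  unfold DI at h1
  simpa only [hk, if_true] using h1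

theorem DI_of {F : Fam m J} {I₀ : Finset (Fin m)} {P : ℕ} {ω ω' : F.Ω}
    (h : ∀ k ∈ I₀, F.D P ω k = F.D P ω' k) : DI F I₀ P ω = DI F I₀ P ω' := by
  classical
  funext k
  unfold DI
  by_cases hk : k ∈ I₀
  · simp only [hk, if_true]
    exact h k hk
  · simp only [hk, if_false]

/-- **The velocities are free of the exact point.** -/
def FrX (S : PCl m) (I₀ : Finset (Fin m)) (W P : ℝ) : Prop :=
  ∀ κ : ℝ, 0 < κ → ∃ k₂ : ℝ, 0 < k₂ ∧ Bas S (fun J F A => ∀ (V : Type) (z : F.Ω → V),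
    Mx (fun J F => ptr F J) (vg W) k₂ F A z →
    CH (Pool.Agent.H49.Ent.cond F.p A True) (DI F I₀ ⌊P * J⌋₊) (fun ω => (z ω, F.W ω)) ≤
      CH (Pool.Agent.H49.Ent.cond F.p A True) (DI F I₀ ⌊P * J⌋₊) (ptr F J) + κ * J)

/-- The velocity of `v` relative to the affine label `(a, c)`. -/
noncomputable def ow (F : Fam m J) (I : Finset (Fin m)) (v : Fin m) (a : PtT F → Fin m → ℝ)
    (c : PtT F → ℝ) (ω : F.Ω) : ℝ :=
  F.d ω v - c (ptr F J ω) - ∑ k ∈ I, a (ptr F J ω) k * F.d ω k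

/-- **The data of a gain** on the event `B`: the own velocity is a function of the velocities of
`I₀` and of a closed function `z`, up to `2 ^ (-M)`. -/
structure GainD (F : Fam m J) (I₀ I : Finset (Fin m)) (v : Fin m) (W e M P : ℕ)
    (B : F.Ω → Prop) (a : PtT F → Fin m → ℝ) (c : PtT F → ℝ) (p : PtT F → ℝ)
    (q : PtT F → Fin m → ℝ) {V : Type} (z : F.Ω → V) (φ : (Fin m → ℤ) × V → ℝ) : Prop where
  ca : ∀ k ∈ I, Cl1 F B W (fun y => a y k)
  cc : Cl1 F B W c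
  rep : ∀ ω, B ω → |ow F I v a c ω - p (ptr F J ω) - ∑ k ∈ I₀, q (ptr F J ω) k * F.d ω k| ≤
    1 / 2 ^ M
  siz : ∀ ω, B ω → ∀ k ∈ I₀, |q (ptr F J ω) k| * 2 ^ M ≤ 2 ^ P
  bda : ∀ ω, B ω → ∀ k ∈ I, |a (ptr F J ω) k| ≤ 2 ^ e
  bdq : ∀ ω, B ω → ∀ k ∈ I₀, |a (ptr F J ω) k + q (ptr F J ω) k| ≤ 2 ^ e
  bdc : ∀ ω, B ω → |c (ptr F J ω) + p (ptr F J ω)| ≤ 2 ^ e
  cz : Cl2 (ptr F J) (slam F W) B z
  fn : ∀ ω, B ω → |ow F I v a c ω - φ (DI F I₀ P ω, z ω)| ≤ 1 / 2 ^ M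

/-- The probability of an event in the conditional law. -/
theorem pe_cond {F : Fam m J} {B X : F.Ω → Prop} (hB : 0 < Pe F.p B) :
    Pe (Pool.Agent.H49.Ent.cond F.p B True) X * Pe F.p B = Pe F.p (fun ω => B ω ∧ X ω) := by
  classical
  rw [Pool.K2S.Pe_cond X, div_mul_cancel₀ _ hB.ne']

/-- **Selection of a point of each cell**, for one family. -/
theorem sel_fam {F : Fam m J} {B : F.Ω → Prop} (hB : 0 < Pe F.p B) {α V : Type} (E : F.Ω → α)
    {z : F.Ω → V} (hz : ∃ φ : PtT F → V, ∀ ω, B ω → z ω = φ (ptr F J ω)) :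
    ∃ (sel : V → F.Ω) (B' : F.Ω → Prop), Sub B' B ∧
      Real.exp (-(CH (Pool.Agent.H49.Ent.cond F.p B True) E z -
        CH (Pool.Agent.H49.Ent.cond F.p B True) E (ptr F J))) * Pe F.p B ≤ Pe F.p B' ∧
      ∀ ω, B' ω → B (sel (z ω)) ∧ z (sel (z ω)) = z ω ∧ ∃ ω', B ω' ∧
        ptr F J ω' = ptr F J (sel (z ω)) ∧ z ω' = z ω ∧ E ω' = E ω := by
  classical
  obtain ⟨r, hr⟩ : ∃ r, r = Pool.Agent.H49.Ent.cond F.p B True := ⟨_, rfl⟩
  have hrl : IsLaw r := by rw [hr]; exact isLaw_cond F.isLaw hB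
  have hrB : ∀ ω, 0 < r ω → B ω := fun ω hω => by
    rw [hr] at hω
    exact cond_supp hω
  obtain ⟨ζ, hζ⟩ := hz
  obtain ⟨sel, hsel⟩ := supp_sel hrl E z (ptr F J) (fun ω ω' h h' e => by
    rw [hζ ω (hrB ω h), hζ ω' (hrB ω' h'), e])
  have hpc := pe_cond (F := F) (B := B) (X := fun ω => 0 < r (sel (z ω)) ∧ z ω = z (sel (z ω)) ∧
    ∃ ω', 0 < r ω' ∧ ptr F J ω' = ptr F J (sel (z ω)) ∧ E ω' = E ω) hB
  rw [← hr] at hpc ⊢
  refine ⟨sel, fun ω => B ω ∧ (0 < r (sel (z ω)) ∧ z ω = z (sel (z ω)) ∧ ∃ ω', 0 < r ω' ∧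
    ptr F J ω' = ptr F J (sel (z ω)) ∧ E ω' = E ω), fun ω h => h.1, ?_, ?_⟩
  · rw [← hpc]
    exact mul_le_mul_of_nonneg_right hsel (Pe_nonneg F.isLaw _)
  rintro ω ⟨hω, hs, hzs, ω', hω', hpt, hD⟩
  have hB' := hrB ω' hω'
  have hBs := hrB _ hs
  refine ⟨hBs, hzs.symm, ω', hB', hpt, ?_, hD⟩
  rw [hζ ω' hB', hpt, ← hζ _ hBs, ← hzs]

/-- **The step for one sample.** -/
theorem gain_one {F : Fam m J} {I₀ I : Finset (Fin m)} {v : Fin m} {M P : ℕ} {B : F.Ω → Prop}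
    {a : PtT F → Fin m → ℝ} {c p : PtT F → ℝ} {q : PtT F → Fin m → ℝ}
    (hrep : ∀ ω, B ω → |ow F I v a c ω - p (ptr F J ω) -
      ∑ k ∈ I₀, q (ptr F J ω) k * F.d ω k| ≤ 1 / 2 ^ M)
    (hsiz : ∀ ω, B ω → ∀ k ∈ I₀, |q (ptr F J ω) k| * 2 ^ M ≤ 2 ^ P)
    {V : Type} {z : F.Ω → V} {φ : (Fin m → ℤ) × V → ℝ}
    (hφ : ∀ ω, B ω → |ow F I v a c ω - φ (DI F I₀ P ω, z ω)| ≤ 1 / 2 ^ M)
    {ω ω' s : F.Ω} (hω : B ω) (hB' : B ω') (hs : B s) (hpt : ptr F J ω' = ptr F J s)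
    (hzz : z ω' = z ω) (hD : DI F I₀ P ω' = DI F I₀ P ω) :
    |(p (ptr F J ω) - p (ptr F J s)) + ∑ k ∈ I₀, (q (ptr F J ω) k - q (ptr F J s) k) *
      F.d ω k| ≤ (m + 4) / 2 ^ M := by
  have h1 : |ow F I v a c ω' - ow F I v a c ω| ≤ 1 / 2 ^ M + 1 / 2 ^ M := by
    have k1 := hφ ω' hB'
    have k2 := hφ ω hω
    rw [hD, hzz] at k1
    have e : ow F I v a c ω' - ow F I v a c ω = (ow F I v a c ω' - φ (DI F I₀ P ω, z ω)) -
        (ow F I v a c ω - φ (DI F I₀ P ω, z ω)) := by ring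
    rw [e]
    exact (abs_sub _ _).trans (add_le_add k1 k2)
  have h2 := hrep ω hω
  have h3 := hrep ω' hB'
  rw [hpt] at h3
  obtain ⟨s', hs'⟩ : ∃ s', s' = ptr F J s := ⟨_, rfl⟩
  have hsz := hsiz _ hs
  rw [← hs'] at h3 hsz ⊢
  have hM : (0 : ℝ) < 2 ^ M := by positivity
  have hP : (0 : ℝ) < 2 ^ P := by positivity
  -- the velocities
  have h4 : |∑ k ∈ I₀, q s' k * (F.d ω' k - F.d ω k)| ≤ m / 2 ^ M := by
    refine (Finset.abs_sum_le_sum_abs _ _).trans ?_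
    have h5 : ∀ k ∈ I₀, |q s' k * (F.d ω' k - F.d ω k)| ≤ 1 / 2 ^ M := by
      intro k hk
      have h6 : |F.d ω' k - F.d ω k| ≤ 1 / 2 ^ P := near_of_fl (DI_eq hD hk)
      rw [abs_mul, le_div_iff₀ hM]
      have h7 : |F.d ω' k - F.d ω k| * 2 ^ P ≤ 1 := by rwa [le_div_iff₀ hP] at h6
      calc |q s' k| * |F.d ω' k - F.d ω k| * 2 ^ M =
          (|q s' k| * 2 ^ M) * |F.d ω' k - F.d ω k| := by ring
        _ ≤ 2 ^ P * |F.d ω' k - F.d ω k| :=
          mul_le_mul_of_nonneg_right (hsz k hk) (abs_nonneg _)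
        _ ≤ 1 := by linarith
    refine (Finset.sum_le_sum h5).trans ?_
    rw [Finset.sum_const, nsmul_eq_mul, mul_one_div]
    refine div_le_div_of_nonneg_right ?_ hM.le
    have h8 : I₀.card ≤ m := by
      have := Finset.card_le_univ I₀
      rwa [Fintype.card_fin] at this
    exact_mod_cast h8
  have e1 : (p (ptr F J ω) - p s') + ∑ k ∈ I₀, (q (ptr F J ω) k - q s' k) * F.d ω k =
      (ow F I v a c ω' - p s' - ∑ k ∈ I₀, q s' k * F.d ω' k) -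
      (ow F I v a c ω - p (ptr F J ω) - ∑ k ∈ I₀, q (ptr F J ω) k * F.d ω k) -
      (ow F I v a c ω' - ow F I v a c ω) + ∑ k ∈ I₀, q s' k * (F.d ω' k - F.d ω k) := by
    simp only [sub_mul, mul_sub, Finset.sum_sub_distrib]
    ring
  rw [e1]
  have e2 : ((m : ℝ) + 4) / 2 ^ M = 1 / 2 ^ M + 1 / 2 ^ M + (1 / 2 ^ M + 1 / 2 ^ M) +
      m / 2 ^ M := by ring
  rw [e2]
  refine (abs_add_le _ _).trans (add_le_add ?_ h4)
  refine (abs_sub _ _).trans (add_le_add ?_ h1)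
  refine (abs_sub _ _).trans (add_le_add h3 h2)

end Pool.GN97
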