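import Pool.Agent.H97.GAIN.Def
import Pool.Agent.H91.LA.Sup

/-!
# Free velocities as a selection, in a class

`free_sel`: if the velocities of `I₀` are free of the exact point given the record of the window
`W`, then for every closed function there is a finer closed function, a selection of a point for
each of its values, and an event which is not too small, on which the digits of the velocities are
also digits of the velocities of a sample over the selected point.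
-/

set_option autoImplicit false

namespace Pool.GN97

open Finset Real
open Pool.Agent.H49.Ent Pool.Agent.H32.Dense Pool.STK Pool.KA Pool.KSAT Pool.K2S Pool.PB Pool.GEN
open Pool.S6C Pool.LA91 Pool.RCD Pool.OWN72 Pool.MM97
open Pool.STAT (cond_supp)

variable {m : ℕ}

/-- The events of a class with full times have positive mass. -/
theorem pos_of {S : PCl m} {C₀ : ℝ} (htm : TmC S C₀) (τ : ℝ) (J : ℕ) (F : Fam m J)
    (A : F.Ω → Prop) (h : S.St τ J F A) : 0 < Pe F.p A :=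
  (htm (max τ 1) J F A (lt_of_lt_of_le one_pos (le_max_right _ _))
    (S.mono (le_max_left _ _) h)).1

/-- **Free velocities as a selection.** -/
theorem free_sel {S : PCl m} {C₀ : ℝ} (htm : TmC S C₀) {I₀ : Finset (Fin m)} {W P η : ℝ}
    (hW1 : W ≤ 1) (hη : RNum S (fun J F => ptr F J) (vg W) η) (hfr : FrX S I₀ W P) {κ : ℝ}
    (hκ : 0 < κ) : Bas S (fun J F A => ∀ (V : Type) (z : F.Ω → V),
      Cl2 (ptr F J) (slam F ⌊W * J⌋₊) A z →
      ∃ (V' : Type) (z' : F.Ω → V') (pr : V' → V) (sel : V' → F.Ω) (B : F.Ω → Prop),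
        Cl2 (ptr F J) (slam F ⌊W * J⌋₊) A z' ∧ (∀ ω, A ω → z ω = pr (z' ω)) ∧ Sub B A ∧
        Real.exp (-(κ * J)) * Pe F.p A ≤ Pe F.p B ∧ ∀ ω, B ω → A (sel (z' ω)) ∧
        z' (sel (z' ω)) = z' ω ∧ ∃ ω', A ω' ∧ ptr F J ω' = ptr F J (sel (z' ω)) ∧
        z' ω' = z' ω ∧ DI F I₀ ⌊P * J⌋₊ ω' = DI F I₀ ⌊P * J⌋₊ ω) := by
  obtain ⟨k₂, hk₂, hfr⟩ := hfr (κ / 2) (half_pos hκ)
  have hpos := pos_of htm
  refine Bas.mono 0 ((hfr.and (time_w htm hW1 (half_pos hκ))).and (mx_ex hpos hη k₂ hk₂)) ?_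
  rintro J - F A ⟨⟨hfr, hA, hT⟩, V₁, z₁, hz₁⟩ V z hz
  have hp := isLaw_cond F.isLaw hA
  have hp0 := hp.nonneg
  have hJ0 : (0 : ℝ) ≤ J := Nat.cast_nonneg J
  have hWJ : ⌊W * (J : ℝ)⌋₊ ≤ J := by
    refine Nat.floor_le_of_le ?_
    nlinarith
  -- the finer closed function
  obtain ⟨z', hz'⟩ : ∃ z' : F.Ω → V₁ × (V × (ℕ × F.ζ)), z' = fun ω =>
    (z₁ ω, (z ω, (F.T1 ⌊W * J⌋₊ ω, F.Z ω))) := ⟨_, rfl⟩
  have hcl : Cl2 (ptr F J) (slam F ⌊W * J⌋₊) A z' := by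
    obtain ⟨⟨⟨φ₁, h1⟩, ψ₁, h2⟩, -⟩ := hz₁
    obtain ⟨⟨φ, h3⟩, ψ, h4⟩ := hz
    constructor
    · refine ⟨fun y => (φ₁ y, (φ y, (y.2.1 / 2 ^ (J - ⌊W * J⌋₊), y.2.2))), fun ω hω => ?_⟩
      rw [hz']
      show (z₁ ω, (z ω, (F.T1 ⌊W * J⌋₊ ω, F.Z ω))) = _
      rw [h1 ω hω, h3 ω hω]
      rfl
    · refine ⟨fun s => (ψ₁ s, (ψ s, (s.2.2, s.2.1))), fun ω hω => ?_⟩
      rw [hz']
      show (z₁ ω, (z ω, (F.T1 ⌊W * J⌋₊ ω, F.Z ω))) = _
      rw [h2 ω hω, h4 ω hω]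
      rfl
  have hmx : Mx (fun J F => ptr F J) (vg W) k₂ F A z' := by
    refine ⟨hcl, fun V' u hu => le_trans ?_ (hz₁.2 V' u hu)⟩
    refine CH_mono_cond hp0 fun ω ω' _ _ h => ?_
    rw [hz'] at h
    exact (Prod.ext_iff.1 h).1
  have h1 := hfr _ z' hmx
  have hAs : ∀ ω, 0 < Pool.Agent.H49.Ent.cond F.p A True ω → A ω := fun ω h => cond_supp h
  obtain ⟨ζ, hζ⟩ := hcl.2
  have h2 := time_out hp hWJ (X := DI F I₀ ⌊P * J⌋₊) (Y := z') (ψ := κ / 2 * J)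
    (fun ω ω' _ _ e => by
      refine DI_of fun k _ => ?_
      have e1 : F.l ω = F.l ω' := (Prod.ext_iff.1 e).1
      have e2 : F.d ω = F.d ω' := (Prod.ext_iff.1 e1).2
      unfold Fam.D
      rw [e2])
    (fun ω ω' a b e => by rw [hζ ω (hAs ω a), hζ ω' (hAs ω' b), e])
    (fun ω ω' _ _ e => by
      rw [hz'] at e
      exact (Prod.ext_iff.1 (Prod.ext_iff.1 (Prod.ext_iff.1 e).2).2).1)
    (fun ω ω' _ _ e => by
      rw [hz'] at e
      exact (Prod.ext_iff.1 (Prod.ext_iff.1 (Prod.ext_iff.1 e).2).2).2) hT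
  obtain ⟨sel, B, b1, b2, b3⟩ := sel_fam hA (DI F I₀ ⌊P * J⌋₊) hcl.1
  refine ⟨_, z', fun y => y.2.1, sel, B, hcl, fun ω _ => by rw [hz'], b1, ?_, b3⟩
  refine le_trans ?_ b2
  refine mul_le_mul_of_nonneg_right (Real.exp_le_exp.2 ?_) (Pe_nonneg F.isLaw A)
  linarith

end Pool.GN97
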