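import Pool.Agent.H97.GAIN.RFam
import Pool.Agent.H97.GAIN.Sel

/-!
# A gain at a rate, in a class: the coefficients have few bits

`GainR`: the data of a gain at a rate. `gam_cls`: the coefficients of the affine representation of
the own velocity have few bits given the record of the window.
-/

set_option autoImplicit false

namespace Pool.GN97

open Finset Real
open Pool.Agent.H49.Ent Pool.Agent.H32.Dense Pool.STK Pool.KA Pool.KSAT Pool.K2S Pool.PB Pool.GEN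
open Pool.S6C Pool.LA91 Pool.RCD Pool.OWN72 Pool.MM97
open Pool.STAT (cond_supp)

variable {m J : ℕ}

/-- **The data of a gain at a rate** on the event `B`: `(a, c)` is an affine label over `I` which is
closed at `W`; relative to it the velocity of `v` is affine in the velocity of `y` with coefficients
`p`, `q` which are closed at `W'`; its digits up to `M` have at most `b` bits given the first `P`
digits of the velocity of `y`, a closed function of `W` and the time. -/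
structure GainR (F : Fam m J) (y : Fin m) (I : Finset (Fin m)) (v : Fin m) (W W' e M P R : ℕ)
    (b : ℝ) (B : F.Ω → Prop) (a : PtT F → Fin m → ℝ) (c p q : PtT F → ℝ) {V : Type}
    (z : F.Ω → V) : Prop where
  ca : ∀ k ∈ I, Cl1 F B W (fun s => a s k)
  cc : Cl1 F B W c
  cp : Cl1 F B W' p
  cq : Cl1 F B W' q
  rep : ∀ ω, B ω → |ow F I v a c ω - p (ptr F J ω) - q (ptr F J ω) * F.d ω y| ≤ 1 / 2 ^ M
  siz : ∀ ω, B ω → |q (ptr F J ω)| * 2 ^ M ≤ 2 ^ P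
  sip : ∀ ω, B ω → |p (ptr F J ω)| * 2 ^ M ≤ 2 ^ R
  bda : ∀ ω, B ω → ∀ k ∈ I, |a (ptr F J ω) k + if k = y then q (ptr F J ω) else 0| ≤ 2 ^ e
  bdc : ∀ ω, B ω → |c (ptr F J ω) + p (ptr F J ω)| ≤ 2 ^ e
  cz : Cl2 (ptr F J) (slam F W) B z
  few : CH (Pool.Agent.H49.Ent.cond F.p B True) (fun ω => ⌊(2 : ℝ) ^ M * ow F I v a c ω⌋)
    (fun ω => (F.D P ω y, (z ω, F.W ω))) ≤ b

theorem GainR.sam {F : Fam m J} {y : Fin m} {I : Finset (Fin m)} {v : Fin m}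
    {W W' e M P R : ℕ} {b : ℝ} {B : F.Ω → Prop} {a : PtT F → Fin m → ℝ} {c p q : PtT F → ℝ}
    {V : Type} {z : F.Ω → V} (h : GainR F y I v W W' e M P R b B a c p q z) {ω ω' : F.Ω}
    (hω : B ω) (hω' : B ω') (e : slam F W ω = slam F W ω') :
    ow F I v a c ω = ow F I v a c ω' := by
  have e1 : F.l ω = F.l ω' := (Prod.ext_iff.1 e).1
  have e2 : F.d ω = F.d ω' := (Prod.ext_iff.1 e1).2
  obtain ⟨f, hf⟩ := h.cc
  unfold ow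
  rw [e2, hf ω hω, hf ω' hω', e]
  congr 1
  refine Finset.sum_congr rfl fun k hk => ?_
  obtain ⟨g, hg⟩ := h.ca k hk
  have h1 : a (ptr F J ω) k = g (slam F W ω) := hg ω hω
  have h2 : a (ptr F J ω') k = g (slam F W ω') := hg ω' hω'
  rw [h1, h2, e]

/-- **The coefficients have few bits** given the record of the window. -/
theorem gam_cls {S : PCl m} {C₀ : ℝ} (htm : TmC S C₀) {y : Fin m} {I : Finset (Fin m)}
    {v : Fin m} {W W' P M R x b c₁ η η' : ℝ} (hW1 : W ≤ 1) (hWW : W ≤ W') (hW1' : W' ≤ 1)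
    (hη : RNum S (fun J F => ptr F J) (vg W) η) (hη' : RNum S (fun J F => ptr F J) (vg W') η')
    (hxM : x ≤ M) (hPR : P ≤ R) (hR : 0 ≤ R) (hb : 0 < b) (hc : 0 < c₁)
    (hfr : FrD S y P W W' b) (hact : Bas S (fun J F A => c₁ * J ≤
      CH (Pool.Agent.H49.Ent.cond F.p A True) (fun ω => F.D ⌊x * J⌋₊ ω y) (ptr F J))) :
    Bas S (fun J F A => ∀ (e : ℕ) (a : PtT F → Fin m → ℝ) (c p q : PtT F → ℝ) (V : Type)
      (z : F.Ω → V), GainR F y I v ⌊W * J⌋₊ ⌊W' * J⌋₊ e ⌊M * J⌋₊ ⌊P * J⌋₊ ⌊R * J⌋₊ (b * J) A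
        a c p q z → ∃ (𝒬 : Type) (Q : F.Ω → 𝒬), Cl2 (ptr F J) (slam F ⌊W * J⌋₊) A Q ∧
        CH (Pool.Agent.H49.Ent.cond F.p A True) (gd F p q (⌊M * J⌋₊ - ⌊x * J⌋₊)) Q ≤
          5 * b * J) := by
  obtain ⟨k₂, hk₂, hfr⟩ := hfr
  have hpos := pos_of htm
  obtain ⟨κ, hκ⟩ : ∃ κ, κ = b / (16 * (R + 1)) := ⟨_, rfl⟩
  have hκ0 : 0 < κ := by rw [hκ]; positivity
  have hκR : κ * (16 * (R + 1)) = b := by
    rw [hκ, div_mul_cancel₀]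
    positivity
  obtain ⟨J₁, hJ₁⟩ := exists_nat_ge ((Real.log 2 + 2 * Real.log 35 + 8 * κ) / (b / 4))
  refine Bas.mono J₁ (((hfr.and (time_w htm hW1 (show (0 : ℝ) < b / 8 by linarith))).and
    ((mx_ex hpos hη k₂ hk₂).and (mx_ex hpos hη' k₂ hk₂))).and (far_cls htm hc hact hκ0)) ?_
  rintro J hJ F A ⟨⟨⟨hfr, hA, hT⟩, ⟨V₁, z₁, hz₁⟩, V₂, z₂, hz₂⟩, hfar⟩ e a c p q V z hG
  have hp := isLaw_cond F.isLaw hA
  have hp0 := hp.nonneg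
  have hJ0 : (0 : ℝ) ≤ J := Nat.cast_nonneg J
  have hJ1 : (J₁ : ℝ) ≤ J := by exact_mod_cast hJ
  have hWJ : ⌊W * (J : ℝ)⌋₊ ≤ J := by
    refine Nat.floor_le_of_le ?_
    nlinarith
  have hWJ' : ⌊W' * (J : ℝ)⌋₊ ≤ J := by
    refine Nat.floor_le_of_le ?_
    nlinarith
  have hWW' : ⌊W * (J : ℝ)⌋₊ ≤ ⌊W' * (J : ℝ)⌋₊ :=
    Nat.floor_le_floor (mul_le_mul_of_nonneg_right hWW hJ0)
  have hAs : ∀ ω, 0 < Pool.Agent.H49.Ent.cond F.p A True ω → A ω := fun ω h => cond_supp h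
  -- the record of the window
  obtain ⟨Q, hQ⟩ : ∃ Q : F.Ω → V₁ × (V × (ℕ × F.ζ)), Q = fun ω =>
    (z₁ ω, (z ω, (F.T1 ⌊W * J⌋₊ ω, F.Z ω))) := ⟨_, rfl⟩
  have hcl : Cl2 (ptr F J) (slam F ⌊W * J⌋₊) A Q := by
    obtain ⟨⟨⟨φ₁, h1⟩, ψ₁, h2⟩, -⟩ := hz₁
    obtain ⟨⟨φ, h3⟩, ψ, h4⟩ := hG.cz
    constructor
    · refine ⟨fun y => (φ₁ y, (φ y, (y.2.1 / 2 ^ (J - ⌊W * J⌋₊), y.2.2))), fun ω hω => ?_⟩
      rw [hQ]
      show (z₁ ω, (z ω, (F.T1 ⌊W * J⌋₊ ω, F.Z ω))) = _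
      rw [h1 ω hω, h3 ω hω]
      rfl
    · refine ⟨fun s => (ψ₁ s, (ψ s, (s.2.2, s.2.1))), fun ω hω => ?_⟩
      rw [hQ]
      show (z₁ ω, (z ω, (F.T1 ⌊W * J⌋₊ ω, F.Z ω))) = _
      rw [h2 ω hω, h4 ω hω]
      rfl
  have hmx : Mx (fun J F => ptr F J) (vg W) k₂ F A Q := by
    refine ⟨hcl, fun V' u hu => le_trans ?_ (hz₁.2 V' u hu)⟩
    refine CH_mono_cond hp0 fun ω ω' _ _ h => ?_
    rw [hQ] at h
    exact (Prod.ext_iff.1 h).1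
  -- the record of the later window
  obtain ⟨K, hK⟩ : ∃ K : F.Ω → V₂ × ((Fin 2 → ℤ) × (V₁ × (V × (ℕ × F.ζ)))), K = fun ω =>
    (z₂ ω, (gd F p q ⌊M * J⌋₊ ω, Q ω)) := ⟨_, rfl⟩
  have hcl' : Cl2 (ptr F J) (slam F ⌊W' * J⌋₊) A K := by
    obtain ⟨⟨⟨φ₁, h1⟩, ψ₁, h2⟩, -⟩ := hz₂
    obtain ⟨⟨φ, h3⟩, ψ, h4⟩ := cl2_late hWW' hWJ' hcl
    obtain ⟨fp, hfp⟩ := hG.cp
    obtain ⟨fq, hfq⟩ := hG.cq
    constructor
    · refine ⟨fun y => (φ₁ y, ((fun i : Fin 2 => if i = 0 then ⌊(2 : ℝ) ^ ⌊M * J⌋₊ * p y⌋ else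
        ⌊(2 : ℝ) ^ ⌊M * J⌋₊ * q y⌋), φ y)), fun ω hω => ?_⟩
      rw [hK]
      show (z₂ ω, (gd F p q ⌊M * J⌋₊ ω, Q ω)) = _
      rw [h1 ω hω, h3 ω hω]
      rfl
    · refine ⟨fun s => (ψ₁ s, ((fun i : Fin 2 => if i = 0 then ⌊(2 : ℝ) ^ ⌊M * J⌋₊ * fp s⌋ else
        ⌊(2 : ℝ) ^ ⌊M * J⌋₊ * fq s⌋), ψ s)), fun ω hω => ?_⟩
      rw [hK]
      show (z₂ ω, (gd F p q ⌊M * J⌋₊ ω, Q ω)) = _
      have e1 : gd F p q ⌊M * J⌋₊ ω = fun i : Fin 2 => if i = 0 then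
          ⌊(2 : ℝ) ^ ⌊M * J⌋₊ * fp (slam F ⌊W' * J⌋₊ ω)⌋ else
          ⌊(2 : ℝ) ^ ⌊M * J⌋₊ * fq (slam F ⌊W' * J⌋₊ ω)⌋ := by
        funext i
        unfold gd
        rw [hfp ω hω, hfq ω hω]
      rw [h2 ω hω, h4 ω hω, e1]
      rfl
  have hmx' : Mx (fun J F => ptr F J) (vg W') k₂ F A K := by
    refine ⟨hcl', fun V' u hu => le_trans ?_ (hz₂.2 V' u hu)⟩
    refine CH_mono_cond hp0 fun ω ω' _ _ h => ?_
    rw [hK] at h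
    exact (Prod.ext_iff.1 h).1
  have hfree := hfr _ Q _ K hmx hmx'
  have hfar := hfar _ K hcl'.1
  obtain ⟨ζ, hζ⟩ := hcl.2
  have hdl : ∀ {ω ω' : F.Ω}, slam F ⌊W * J⌋₊ ω = slam F ⌊W * J⌋₊ ω' → F.d ω = F.d ω' := by
    intro ω ω' e
    have e1 : F.l ω = F.l ω' := (Prod.ext_iff.1 e).1
    exact (Prod.ext_iff.1 e1).2
  have hDy : ∀ {ω ω' : F.Ω}, slam F ⌊W * J⌋₊ ω = slam F ⌊W * J⌋₊ ω' →
      F.D ⌊P * J⌋₊ ω y = F.D ⌊P * J⌋₊ ω' y := by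
    intro ω ω' e
    unfold Fam.D
    rw [hdl e]
  have hQT : ∀ {ω ω' : F.Ω}, Q ω = Q ω' → F.T1 ⌊W * J⌋₊ ω = F.T1 ⌊W * J⌋₊ ω' ∧
      F.Z ω = F.Z ω' ∧ z ω = z ω' := by
    intro ω ω' e
    rw [hQ] at e
    simp only [Prod.mk.injEq] at e
    exact ⟨e.2.2.1, e.2.2.2, e.2.1⟩
  -- the velocity
  have h1 := time_out hp hWJ (X := fun ω => F.D ⌊P * J⌋₊ ω y) (Y := Q) (ψ := b / 8 * J)
    (fun ω ω' _ _ e => hDy e)
    (fun ω ω' a b e => by rw [hζ ω (hAs ω a), hζ ω' (hAs ω' b), e])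
    (fun ω ω' _ _ e => (hQT e).1) (fun ω ω' _ _ e => (hQT e).2.1) hT
  have h2 : CH (Pool.Agent.H49.Ent.cond F.p A True) (fun ω => F.D ⌊P * J⌋₊ ω y)
      (fun ω => (K ω, F.W ω)) ≤
      CH (Pool.Agent.H49.Ent.cond F.p A True) (fun ω => F.D ⌊P * J⌋₊ ω y) K :=
    CH_mono_cond hp0 fun ω ω' _ _ h => (Prod.ext_iff.1 h).1
  -- the own velocity
  have h3 := time_out hp hWJ (X := fun ω => ⌊(2 : ℝ) ^ ⌊M * J⌋₊ * ow F I v a c ω⌋)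
    (Y := fun ω => (Q ω, F.D ⌊P * J⌋₊ ω y)) (ψ := b / 8 * J)
    (fun ω ω' h h' e => by
      show ⌊(2 : ℝ) ^ ⌊M * J⌋₊ * ow F I v a c ω⌋ = ⌊(2 : ℝ) ^ ⌊M * J⌋₊ * ow F I v a c ω'⌋
      rw [hG.sam (hAs ω h) (hAs ω' h') e])
    (fun ω ω' a b e => Prod.ext (by
      show Q ω = Q ω'
      rw [hζ ω (hAs ω a), hζ ω' (hAs ω' b), e]) (hDy e))
    (fun ω ω' _ _ e => (hQT (Prod.ext_iff.1 e).1).1)
    (fun ω ω' _ _ e => (hQT (Prod.ext_iff.1 e).1).2.1) hT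
  have h4 : CH (Pool.Agent.H49.Ent.cond F.p A True)
      (fun ω => ⌊(2 : ℝ) ^ ⌊M * J⌋₊ * ow F I v a c ω⌋)
      (fun ω => ((Q ω, F.D ⌊P * J⌋₊ ω y), F.W ω)) ≤
      CH (Pool.Agent.H49.Ent.cond F.p A True) (fun ω => ⌊(2 : ℝ) ^ ⌊M * J⌋₊ * ow F I v a c ω⌋)
      (fun ω => (F.D ⌊P * J⌋₊ ω y, (z ω, F.W ω))) :=
    CH_mono_cond hp0 fun ω ω' _ _ h => by
      simp only [Prod.mk.injEq] at h ⊢
      exact ⟨h.1.2, (hQT h.1.1).2.2, h.2⟩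
  have hxM' : ⌊x * (J : ℝ)⌋₊ ≤ ⌊M * J⌋₊ :=
    Nat.floor_le_floor (mul_le_mul_of_nonneg_right hxM hJ0)
  have hPR' : ⌊P * (J : ℝ)⌋₊ ≤ ⌊R * J⌋₊ :=
    Nat.floor_le_floor (mul_le_mul_of_nonneg_right hPR hJ0)
  have key := gam_fam hA hxM' hPR' hG.rep hG.siz hG.sip (Q := Q) (K := K) (κ := κ)
    (fun ω ω' _ _ e => by
      rw [hK] at e
      simp only [Prod.mk.injEq] at e
      exact e.2.2)
    (fun ω ω' _ _ e => by
      rw [hK] at e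
      simp only [Prod.mk.injEq] at e
      exact e.2.1) hfar
  refine ⟨_, Q, hcl, key.trans ?_⟩
  have hfew := hG.few
  have hRJ : (⌊R * (J : ℝ)⌋₊ : ℝ) ≤ R * J := Nat.floor_le (by positivity)
  have h5 : κ * (⌊R * (J : ℝ)⌋₊ + 4) ≤ κ * (R * J + 4) :=
    mul_le_mul_of_nonneg_left (by linarith) hκ0.le
  have h6 : κ * (R * J) ≤ b / 16 * J := by
    have h7 : κ * (16 * (R + 1)) * J = b * J := by rw [hκR]
    have h8 : 0 ≤ κ * J := by positivity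
    nlinarith
  have h7 : Real.log 2 + 2 * Real.log 35 + 8 * κ ≤ b / 4 * J := by
    have h8 := hJ₁.trans hJ1
    rw [div_le_iff₀ (by linarith)] at h8
    linarith
  have h8 : 0 ≤ b * J := by positivity
  linarith

end Pool.GN97
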