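import Pool.Agent.H97.GAIN.RLaw
import Pool.Agent.H97.GAIN.Def
import Pool.Agent.H98.P4.Few

/-!
# A gain at a rate: one family

`recov`: an affine function from its values at two velocities. `recE`: the velocity from two affine
functions with the same value at it. `far_cls`: two samples over a function of the exact point have
different velocities. `gam_fam`: the coefficients of the affine representation have few bits given
the coarser record.
-/

set_option autoImplicit false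

namespace Pool.GN97

open Finset Real
open Pool.Agent.H49.Ent Pool.Agent.H32.Dense Pool.STK Pool.KA Pool.KSAT Pool.K2S Pool.PB Pool.GEN
open Pool.S6C Pool.OWN72
open Pool.STAT (cond_supp)
open Pool.KM7 (P2_isLaw P2_pos)
open Pool.JVE (pair_sel)
open Pool.MIC6 (res_of)
open Pool.BFL (Pb)

variable {m J : ℕ}

/-- An affine function from its values at two velocities. -/
theorem recov {p q p' q' E₁ E₂ E₁' E₂' D₁ D₂ D₁' D₂' δ σ : ℝ} (hσ : 0 < σ) (hσ1 : σ ≤ 1)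
    (hδ : 0 ≤ δ) (a1 : |D₁ - p - q * E₁| ≤ δ) (a2 : |D₂ - p - q * E₂| ≤ 3 * δ)
    (b1 : |D₁' - p' - q' * E₁'| ≤ δ) (b2 : |D₂' - p' - q' * E₂'| ≤ 3 * δ)
    (d1 : |D₁ - D₁'| ≤ δ) (d2 : |D₂ - D₂'| ≤ δ) (e1 : |q' * (E₁ - E₁')| ≤ δ)
    (e2 : |q' * (E₂ - E₂')| ≤ δ) (hE : σ ≤ |E₁ - E₂|) (h1 : |E₁| ≤ 1) :
    |q - q'| ≤ 12 * δ / σ ∧ |p - p'| ≤ 16 * δ / σ := by
  have X1 : |(p - p') + (q - q') * E₁| ≤ 4 * δ := by
    have e : (p - p') + (q - q') * E₁ = -(D₁ - p - q * E₁) + (D₁' - p' - q' * E₁') +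
        (D₁ - D₁') - q' * (E₁ - E₁') := by ring
    rw [e]
    refine (abs_sub _ _).trans ?_
    have h2 := abs_add_le (-(D₁ - p - q * E₁) + (D₁' - p' - q' * E₁')) (D₁ - D₁')
    have h3 := abs_add_le (-(D₁ - p - q * E₁)) (D₁' - p' - q' * E₁')
    rw [abs_neg] at h3
    linarith
  have X2 : |(p - p') + (q - q') * E₂| ≤ 8 * δ := by
    have e : (p - p') + (q - q') * E₂ = -(D₂ - p - q * E₂) + (D₂' - p' - q' * E₂') +
        (D₂ - D₂') - q' * (E₂ - E₂') := by ring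
    rw [e]
    refine (abs_sub _ _).trans ?_
    have h2 := abs_add_le (-(D₂ - p - q * E₂) + (D₂' - p' - q' * E₂')) (D₂ - D₂')
    have h3 := abs_add_le (-(D₂ - p - q * E₂)) (D₂' - p' - q' * E₂')
    rw [abs_neg] at h3
    linarith
  have h2 : |q - q'| * |E₁ - E₂| ≤ 12 * δ := by
    rw [← abs_mul]
    have e : (q - q') * (E₁ - E₂) = ((p - p') + (q - q') * E₁) - ((p - p') + (q - q') * E₂) := by
      ring
    rw [e]
    refine (abs_sub _ _).trans ?_
    linarith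
  have h3 : |q - q'| * σ ≤ 12 * δ :=
    (mul_le_mul_of_nonneg_left hE (abs_nonneg _)).trans h2
  have h4 : |q - q'| ≤ 12 * δ / σ := by rwa [le_div_iff₀ hσ]
  refine ⟨h4, ?_⟩
  have e : p - p' = ((p - p') + (q - q') * E₁) - (q - q') * E₁ := by ring
  rw [e]
  refine (abs_sub _ _).trans ?_
  have h5 : |(q - q') * E₁| ≤ 12 * δ / σ := by
    rw [abs_mul]
    exact (mul_le_of_le_one_right (abs_nonneg _) h1).trans h4
  have h6 : 4 * δ ≤ 4 * δ / σ := by
    rw [le_div_iff₀ hσ]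
    nlinarith
  have h7 : 16 * δ / σ = 4 * δ / σ + 12 * δ / σ := by ring
  linarith

/-- The velocity from two affine functions with the same value at it. -/
theorem recE {p q s t p' q' s' t' E E' δ η ρ : ℝ} (hρ : 0 < ρ)
    (a1 : |(p - s) + (q - t) * E| ≤ 2 * δ) (a2 : |(p' - s') + (q' - t') * E'| ≤ 2 * δ)
    (b1 : |p - p'| ≤ η) (b2 : |s - s'| ≤ η) (b3 : |q - q'| ≤ η) (b4 : |t - t'| ≤ η)
    (hE : |E'| ≤ 1) (hq : ρ ≤ |q - t|) : |E - E'| ≤ (4 * δ + 4 * η) / ρ := by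
  have hη : 0 ≤ η := (abs_nonneg _).trans b1
  have h1 : |(q - t) * (E - E')| ≤ 4 * δ + 4 * η := by
    have e : (q - t) * (E - E') = ((p - s) + (q - t) * E) - ((p' - s') + (q' - t') * E') +
        (-((q - q') - (t - t')) * E' + (-((p - p') - (s - s')))) := by ring
    rw [e]
    refine (abs_add_le _ _).trans ?_
    have h2 := abs_sub ((p - s) + (q - t) * E) ((p' - s') + (q' - t') * E')
    have h3 := abs_add_le (-((q - q') - (t - t')) * E') (-((p - p') - (s - s')))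
    have h4 : |-((q - q') - (t - t')) * E'| ≤ 2 * η := by
      rw [abs_mul, abs_neg]
      refine (mul_le_of_le_one_right (abs_nonneg _) hE).trans ?_
      have := abs_sub (q - q') (t - t')
      linarith
    have h5 : |-((p - p') - (s - s'))| ≤ 2 * η := by
      rw [abs_neg]
      have := abs_sub (p - p') (s - s')
      linarith
    linarith
  rw [abs_mul] at h1
  rw [le_div_iff₀ hρ]
  have h2 := mul_le_mul_of_nonneg_right hq (abs_nonneg (E - E'))
  linarith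

/-- **Two samples over a function of the exact point have different velocities.** -/
theorem far_cls {S : PCl m} {C₀ : ℝ} (htm : TmC S C₀) {y : Fin m} {x c₁ κ : ℝ} (hc : 0 < c₁)
    (hact : Bas S (fun J F A => c₁ * J ≤ CH (Pool.Agent.H49.Ent.cond F.p A True)
      (fun ω => F.D ⌊x * J⌋₊ ω y) (ptr F J))) (hκ : 0 < κ) :
    Bas S (fun J F A => ∀ (𝒦 : Type) (K : F.Ω → 𝒦),
      (∃ φ : PtT F → 𝒦, ∀ ω, A ω → K ω = φ (ptr F J ω)) →
      Pe (Pool.KM7.P2 (Pool.Agent.H49.Ent.cond F.p A True) K)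
        (fun w => |F.d w.1 y - F.d w.2 y| < 1 / 2 ^ ⌊x * J⌋₊) ≤ κ) := by
  classical
  obtain ⟨τ, hτ, J₁, hb⟩ := hact
  obtain ⟨J₂, hJ₂⟩ := exists_nat_ge (Real.log (1 / κ) / (τ / 2))
  obtain ⟨J₃, hJ₃⟩ := exists_nat_ge ((Real.log 7 + 1) / c₁)
  refine ⟨τ / 2, by linarith, max J₁ (max J₂ J₃), ?_⟩
  intro J hJ F A hA 𝒦 K hK
  obtain ⟨φ, hφ⟩ := hK
  have j1 : J₁ ≤ J := (le_max_left _ _).trans hJ
  have j2 : (J₂ : ℝ) ≤ J := by
    exact_mod_cast ((le_max_left _ _).trans (le_max_right _ _)).trans hJ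
  have j3 : (J₃ : ℝ) ≤ J := by
    exact_mod_cast ((le_max_right _ _).trans (le_max_right _ _)).trans hJ
  have hlog : Real.log (1 / κ) ≤ τ / 2 * J := by
    have h1 := hJ₂.trans j2
    rw [div_le_iff₀ (by linarith)] at h1
    linarith
  have hcJ : Real.log 7 + 1 ≤ c₁ * J := by
    have h1 := hJ₃.trans j3
    rw [div_le_iff₀ hc] at h1
    linarith
  have hA0 := (htm (τ / 2) J F A (by linarith) hA).1
  have hr := isLaw_cond F.isLaw hA0
  by_contra hcon
  rw [not_le] at hcon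
  have hne : Nonempty F.Ω := by
    by_contra hcon
    rw [not_nonempty_iff] at hcon
    have h2 := hr.sum_one
    rw [Finset.univ_eq_empty, Finset.sum_empty] at h2
    exact zero_ne_one h2
  obtain ⟨sel, hsel⟩ := pair_sel hr.nonneg K
    (fun ω ω' => |F.d ω y - F.d ω' y| < 1 / 2 ^ ⌊x * J⌋₊)
  have h1 := hcon.trans_le hsel
  obtain ⟨Bd, hBd⟩ : ∃ Bd : F.Ω → Prop, Bd = fun ω =>
    A ω ∧ |F.d ω y - F.d (sel (K ω)) y| < 1 / 2 ^ ⌊x * J⌋₊ := ⟨_, rfl⟩
  have hsub : Sub Bd A := fun ω hω => by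
    rw [hBd] at hω
    exact hω.1
  have hbig : κ * Pe F.p A < Pe F.p Bd := by
    rw [hBd, ← pe_cond hA0]
    exact mul_lt_mul_of_pos_right h1 hA0
  have hBd0 : 0 < Pe F.p Bd := (mul_pos hκ hA0).trans hbig
  have hS := res_of (by linarith : (0 : ℝ) ≤ τ / 2) hA hsub
    (by positivity : (0 : ℝ) < 1 / κ) hlog (by
      rw [one_div, ← div_eq_inv_mul, le_div_iff₀ hκ]
      linarith)
  have e1 : 2 * (τ / 2) = τ := by ring
  rw [e1] at hS
  have h2 := hb J j1 F Bd hS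
  have hq := isLaw_cond F.isLaw hBd0
  have h3 : CH (Pool.Agent.H49.Ent.cond F.p Bd True) (fun ω => F.D ⌊x * J⌋₊ ω y) K ≤
      Real.log (2 * (2 + 1) + 1) := by
    refine near_few hq (fun ω => F.d ω y) K (M := 2) fun ω ω' hω hω' h => ?_
    have k1 : Bd ω := cond_supp hω
    have k2 : Bd ω' := cond_supp hω'
    rw [hBd] at k1 k2
    have l1 := k1.2.le
    have l2 := k2.2.le
    rw [← h] at l2
    have e2 : F.d ω y - F.d ω' y = (F.d ω y - F.d (sel (K ω)) y) -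
        (F.d ω' y - F.d (sel (K ω)) y) := by ring
    rw [e2]
    refine (abs_sub _ _).trans ?_
    have e3 : (2 : ℝ) / 2 ^ ⌊x * J⌋₊ = 1 / 2 ^ ⌊x * J⌋₊ + 1 / 2 ^ ⌊x * J⌋₊ := by ring
    rw [e3]
    exact add_le_add l1 l2
  have h4 : CH (Pool.Agent.H49.Ent.cond F.p Bd True) (fun ω => F.D ⌊x * J⌋₊ ω y) (ptr F J) ≤
      CH (Pool.Agent.H49.Ent.cond F.p Bd True) (fun ω => F.D ⌊x * J⌋₊ ω y) K :=
    CH_mono_cond hq.nonneg fun ω ω' hω hω' h => by
      rw [hφ ω (hsub ω (cond_supp hω)), hφ ω' (hsub ω' (cond_supp hω')), h]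
  have e3 : (2 : ℝ) * (2 + 1) + 1 = 7 := by norm_num
  rw [e3] at h3
  linarith

/-- The digits of the two coefficients. -/
noncomputable def gd (F : Fam m J) (p q : PtT F → ℝ) (N : ℕ) (ω : F.Ω) (i : Fin 2) : ℤ :=
  if i = 0 then ⌊(2 : ℝ) ^ N * p (ptr F J ω)⌋ else ⌊(2 : ℝ) ^ N * q (ptr F J ω)⌋

theorem gd_eq {F : Fam m J} {p q : PtT F → ℝ} {N : ℕ} {ω ω' : F.Ω}
    (h : gd F p q N ω = gd F p q N ω') :
    |p (ptr F J ω) - p (ptr F J ω')| ≤ 1 / 2 ^ N ∧
      |q (ptr F J ω) - q (ptr F J ω')| ≤ 1 / 2 ^ N := by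
  have h0 := congrFun h 0
  have h1 := congrFun h 1
  unfold gd at h0 h1
  simp only [if_true] at h0
  simp only [show (1 : Fin 2) ≠ 0 by decide, if_false] at h1
  exact ⟨near_of_fl h0, near_of_fl h1⟩

/-- The logarithm of the range. -/
theorem log_rng (R : ℕ) : Real.log (4 * (2 ^ R + 1) + 1) ≤ R + 4 := by
  have h2 : (4 : ℝ) * (2 ^ R + 1) + 1 ≤ 2 ^ (R + 4) := by
    rw [pow_add]
    have : (1 : ℝ) ≤ 2 ^ R := one_le_pow₀ (by norm_num)
    linarith
  refine (Real.log_le_log (by positivity) h2).trans ?_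
  rw [Real.log_pow]
  push_cast
  have h3 : (0 : ℝ) ≤ R + 4 := by positivity
  have l2 : Real.log 2 ≤ 1 := by
    have := Real.log_two_lt_d9
    linarith
  nlinarith

/-- The size of a floor. -/
theorem fl_siz {M N R : ℕ} (h : N ≤ M) {x : ℝ} (hx : |x| * 2 ^ M ≤ 2 ^ R) :
    |((⌊(2 : ℝ) ^ N * x⌋ : ℤ) : ℝ)| ≤ 2 ^ R + 1 := by
  have h1 := Int.floor_le ((2 : ℝ) ^ N * x)
  have h2 := Int.lt_floor_add_one ((2 : ℝ) ^ N * x)
  have h3 : |(2 : ℝ) ^ N * x| ≤ 2 ^ R := by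
    rw [abs_mul, abs_of_pos (by positivity : (0 : ℝ) < 2 ^ N), mul_comm]
    refine le_trans (mul_le_mul_of_nonneg_left ?_ (abs_nonneg x)) hx
    exact pow_le_pow_right₀ (by norm_num) h
  obtain ⟨h4, h5⟩ := abs_le.1 h3
  rw [abs_le]
  constructor <;> linarith

/-- **The coefficients have few bits**, one family. -/
theorem gam_fam {F : Fam m J} {A : F.Ω → Prop} (hA : 0 < Pe F.p A) {y : Fin m}
    {I : Finset (Fin m)} {v : Fin m} {a : PtT F → Fin m → ℝ} {c p q : PtT F → ℝ}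
    {M x P R : ℕ} (hxM : x ≤ M) (hPR : P ≤ R)
    (hrep : ∀ ω, A ω → |ow F I v a c ω - p (ptr F J ω) - q (ptr F J ω) * F.d ω y| ≤ 1 / 2 ^ M)
    (hsiz : ∀ ω, A ω → |q (ptr F J ω)| * 2 ^ M ≤ 2 ^ P)
    (hsip : ∀ ω, A ω → |p (ptr F J ω)| * 2 ^ M ≤ 2 ^ R) {𝒬 𝒦 : Type} {Q : F.Ω → 𝒬}
    {K : F.Ω → 𝒦} (hKQ : ∀ ω ω', A ω → A ω' → K ω = K ω' → Q ω = Q ω')
    (hKp : ∀ ω ω', A ω → A ω' → K ω = K ω' → gd F p q M ω = gd F p q M ω')
    {κ : ℝ} (hfar : Pe (Pool.KM7.P2 (Pool.Agent.H49.Ent.cond F.p A True) K)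
      (fun w => |F.d w.1 y - F.d w.2 y| < 1 / 2 ^ x) ≤ κ) :
    CH (Pool.Agent.H49.Ent.cond F.p A True) (gd F p q (M - x)) Q ≤
      2 * CH (Pool.Agent.H49.Ent.cond F.p A True) (fun ω => ⌊(2 : ℝ) ^ M * ow F I v a c ω⌋)
        (fun ω => (Q ω, F.D P ω y)) +
      2 * (CH (Pool.Agent.H49.Ent.cond F.p A True) (fun ω => F.D P ω y) Q -
        CH (Pool.Agent.H49.Ent.cond F.p A True) (fun ω => F.D P ω y) K) +
      (Real.log 2 + 2 * (Real.log 35 + κ * (R + 4))) := by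
  classical
  obtain ⟨r, hr⟩ : ∃ r, r = Pool.Agent.H49.Ent.cond F.p A True := ⟨_, rfl⟩
  have hrl : IsLaw r := by rw [hr]; exact isLaw_cond F.isLaw hA
  have hrA : ∀ ω, 0 < r ω → A ω := fun ω hω => by
    rw [hr] at hω
    exact cond_supp hω
  rw [← hr] at hfar ⊢
  have pM : (0 : ℝ) < 2 ^ M := by positivity
  have px : (0 : ℝ) < 2 ^ x := by positivity
  have pP : (0 : ℝ) < 2 ^ P := by positivity
  have pN : (0 : ℝ) < 2 ^ (M - x) := by positivity
  have hMx : (2 : ℝ) ^ M = 2 ^ (M - x) * 2 ^ x := by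
    rw [← pow_add]
    congr 1
    omega
  have hgN : ∀ ω ω', A ω → A ω' → K ω = K ω' → gd F p q (M - x) ω = gd F p q (M - x) ω' := by
    intro ω ω' h h' e
    have h1 := hKp ω ω' h h' e
    funext i
    have h2 := congrFun h1 i
    unfold gd at h2 ⊢
    by_cases hi : i = 0
    · rw [if_pos hi, if_pos hi] at h2 ⊢
      exact Pool.MM97.fl_coarse (by omega) h2
    · rw [if_neg hi, if_neg hi] at h2 ⊢
      exact Pool.MM97.fl_coarse (by omega) h2
  have key := grad_few hrl (K := K) (Q := Q) (fun ω => F.D P ω y)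
    (fun ω => ⌊(2 : ℝ) ^ M * ow F I v a c ω⌋) (g := gd F p q (M - x))
    (fun ω ω' h h' e => hKQ ω ω' (hrA ω h) (hrA ω' h') e)
    (fun ω ω' h h' e => hgN ω ω' (hrA ω h) (hrA ω' h') e)
  have hl2 := P2_isLaw hrl K
  have hps : ∀ w, 0 < Pool.KM7.P2 r K w → A w.1 ∧ A w.2 ∧ K w.1 = K w.2 := fun w hw => by
    obtain ⟨h1, h2, h3⟩ := (P2_pos hrl w).mp hw
    exact ⟨hrA _ h1, hrA _ h2, h3⟩
  have few := Pool.P4N.few_ev hl2 (d := 2)
    (fun w => ¬ |F.d w.1 y - F.d w.2 y| < 1 / 2 ^ x) (fun w => gd F p q (M - x) w.1)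
    (fun w => ((⌊(2 : ℝ) ^ M * ow F I v a c w.1⌋, ⌊(2 : ℝ) ^ M * ow F I v a c w.2⌋),
      ((F.D P w.1 y, F.D P w.2 y), Q w.1))) (L := 17) (Q := 2 ^ R + 1) (by norm_num)
    (by positivity) (fun w w' hw hw' g1 g2 h i => by
      obtain ⟨i1, i2, i3⟩ := hps w hw
      obtain ⟨i1', i2', i3'⟩ := hps w' hw'
      simp only [Prod.mk.injEq] at h
      obtain ⟨⟨f1, f2⟩, ⟨f3, f4⟩, -⟩ := h
      have gq := gd_eq (hKp _ _ i1 i2 i3)
      have gq' := gd_eq (hKp _ _ i1' i2' i3')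
      have d1 := near_of_fl f1
      have d2 := near_of_fl f2
      have e1 : |F.d w.1 y - F.d w'.1 y| ≤ 1 / 2 ^ P := near_of_fl f3
      have e2 : |F.d w.2 y - F.d w'.2 y| ≤ 1 / 2 ^ P := near_of_fl f4
      have qs := hsiz _ i1'
      -- the relation at the second sample with the coefficients of the first one
      have a2 : ∀ u v' : F.Ω, A v' → |p (ptr F J u) - p (ptr F J v')| ≤ 1 / 2 ^ M →
          |q (ptr F J u) - q (ptr F J v')| ≤ 1 / 2 ^ M →
          |ow F I v a c v' - p (ptr F J u) - q (ptr F J u) * F.d v' y| ≤ 3 * (1 / 2 ^ M) := by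
        intro u v' hv' k1 k2
        have e : ow F I v a c v' - p (ptr F J u) - q (ptr F J u) * F.d v' y =
            (ow F I v a c v' - p (ptr F J v') - q (ptr F J v') * F.d v' y) -
            (p (ptr F J u) - p (ptr F J v')) -
            (q (ptr F J u) - q (ptr F J v')) * F.d v' y := by ring
        rw [e]
        refine (abs_sub _ _).trans ?_
        have h3 := abs_sub (ow F I v a c v' - p (ptr F J v') - q (ptr F J v') * F.d v' y)
          (p (ptr F J u) - p (ptr F J v'))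
        have h4 := hrep v' hv'
        have h5 : |(q (ptr F J u) - q (ptr F J v')) * F.d v' y| ≤ 1 / 2 ^ M := by
          rw [abs_mul]
          exact (mul_le_of_le_one_right (abs_nonneg _) (F.dir v' y)).trans k2
        linarith
      have qe : ∀ t : ℝ, |t| ≤ 1 / 2 ^ P → |q (ptr F J w'.1) * t| ≤ 1 / 2 ^ M := by
        intro t ht
        rw [abs_mul, le_div_iff₀ pM]
        have ht' : |t| * 2 ^ P ≤ 1 := by rwa [le_div_iff₀ pP] at ht
        calc |q (ptr F J w'.1)| * |t| * 2 ^ M = (|q (ptr F J w'.1)| * 2 ^ M) * |t| := by ring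
          _ ≤ 2 ^ P * |t| := mul_le_mul_of_nonneg_right qs (abs_nonneg _)
          _ ≤ 1 := by linarith
      obtain ⟨r1, r2⟩ := recov (δ := 1 / 2 ^ M) (σ := 1 / 2 ^ x) (by positivity)
        (by rw [div_le_one px]; exact one_le_pow₀ (by norm_num)) (by positivity)
        (hrep _ i1) (a2 w.1 w.2 i2 gq.1 gq.2) (hrep _ i1') (a2 w'.1 w'.2 i2' gq'.1 gq'.2)
        d1 d2 (qe _ e1) (qe _ e2) (not_lt.1 g1) (F.dir _ y)
      have c1 : 12 * (1 / 2 ^ M) / (1 / 2 ^ x) = (12 : ℝ) / 2 ^ (M - x) := by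
        rw [hMx]
        field_simp
      have c2 : 16 * (1 / 2 ^ M) / (1 / 2 ^ x) = (16 : ℝ) / 2 ^ (M - x) := by
        rw [hMx]
        field_simp
      rw [c1] at r1
      rw [c2] at r2
      unfold gd
      by_cases hi : i = 0
      · rw [if_pos hi, if_pos hi]
        have := floor_near r2
        linarith
      · rw [if_neg hi, if_neg hi]
        have := floor_near r1
        linarith)
    (fun w hw i => by
      obtain ⟨i1, i2, i3⟩ := hps w hw
      unfold gd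
      by_cases hi : i = 0
      · rw [if_pos hi]
        exact fl_siz (by omega) (hsip _ i1)
      · rw [if_neg hi]
        refine fl_siz (by omega) ((hsiz _ i1).trans ?_)
        exact pow_le_pow_right₀ (by norm_num) hPR)
  have hPb : Pb (Pool.KM7.P2 r K) (fun w => ¬ ¬ |F.d w.1 y - F.d w.2 y| < 1 / 2 ^ x) ≤ κ := by
    refine le_trans (le_of_eq ?_) hfar
    rw [Pe_eq]
    unfold Pb
    refine Finset.sum_congr rfl fun w _ => ?_
    by_cases h : |F.d w.1 y - F.d w.2 y| < 1 / 2 ^ x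
    · rw [if_pos h, if_pos (not_not.2 h)]
    · rw [if_neg h, if_neg (not_not.not.2 h)]
  have hlr := log_rng R
  have hl0 : 0 ≤ Real.log (4 * ((2 : ℝ) ^ R + 1) + 1) := Real.log_nonneg (by
    have : (1 : ℝ) ≤ 2 ^ R := one_le_pow₀ (by norm_num)
    linarith)
  have hPb0 : 0 ≤ Pb (Pool.KM7.P2 r K) (fun w => ¬ ¬ |F.d w.1 y - F.d w.2 y| < 1 / 2 ^ x) := by
    unfold Pb
    exact Finset.sum_nonneg fun ω _ => by
      split_ifs
      · exact hl2.nonneg ω
      · exact le_rfl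
  have h9 : Pb (Pool.KM7.P2 r K) (fun w => ¬ ¬ |F.d w.1 y - F.d w.2 y| < 1 / 2 ^ x) *
      Real.log (4 * (2 ^ R + 1) + 1) ≤ κ * (R + 4) :=
    mul_le_mul hPb hlr hl0 (hPb0.trans hPb)
  have e35 : (2 : ℝ) * 17 + 1 = 35 := by norm_num
  rw [e35] at few
  push_cast at few
  linarith

end Pool.GN97
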