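import Pool.Agent.H97.GAIN.Law
import Pool.Agent.H17.OWN.P3

/-!
# A gain at a rate: entropies

`grad_few`: a function `g` of a record `K` which is recovered from two samples over `K` has few bits
given the coarser record `Q`. `typ_list`: a quantity with few bits is in a short list given the
datum, outside a small event.
-/

set_option autoImplicit false

namespace Pool.GN97

open Finset Real
open Pool.Agent.H49.Ent Pool.Agent.H32.Dense Pool.STK Pool.CH30 Pool.OWN17 Pool.K2S
open Pool.PR46 (mi_sym)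
open Pool.KM7 (P2_isLaw P2_pos)
open Pool.JVE (pe_sum)

variable {Ω α β γ ε δ : Type} [Fintype Ω] {p : Ω → ℝ}

/-- **A function of the record from two samples.** -/
theorem grad_few (hp : IsLaw p) {K : Ω → α} {Q : Ω → β} (e : Ω → ε) (D : Ω → δ) {g : Ω → γ}
    (hQ : Det p K Q) (hg : Det p K g) :
    CH p g Q ≤ 2 * CH p D (fun ω => (Q ω, e ω)) + 2 * (CH p e Q - CH p e K) +
      CH (Pool.KM7.P2 p K) (fun w => g w.1)
        (fun w => ((D w.1, D w.2), ((e w.1, e w.2), Q w.1))) := by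
  obtain ⟨q, hq⟩ : ∃ q, q = Pool.KM7.P2 p K := ⟨_, rfl⟩
  have hl : IsLaw q := by rw [hq]; exact P2_isLaw hp K
  have h0 := hl.nonneg
  have hps : ∀ w, 0 < q w → 0 < p w.1 ∧ 0 < p w.2 ∧ K w.1 = K w.2 := fun w hw => by
    rw [hq] at hw
    exact (P2_pos hp w).mp hw
  have p1 : ∀ {S T : Type} (X : Ω → S) (Y : Ω → T),
      CH q (fun w => X w.1) (fun w => Y w.1) = CH p X Y := fun X Y => by
    rw [hq]
    exact (push2_fst hp K).CH X Y
  have p2 : ∀ {S T : Type} (X : Ω → S) (Y : Ω → T),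
      CH q (fun w => X w.2) (fun w => Y w.2) = CH p X Y := fun X Y => by
    rw [hq]
    exact (push2_snd hp K).CH X Y
  have hQQ : ∀ w, 0 < q w → Q w.1 = Q w.2 := fun w hw =>
    hQ _ _ (hps w hw).1 (hps w hw).2.1 (hps w hw).2.2
  have a1 := mi_sym h0 (fun w : Ω × Ω => g w.1) (fun w => (e w.1, e w.2)) (fun w => Q w.1)
  have a2 := CH_subadd h0 (fun w : Ω × Ω => e w.1) (fun w => e w.2) (fun w => Q w.1)
  have a3 : CH q (fun w => e w.1) (fun w => Q w.1) = CH p e Q := p1 e Q
  have a4 : CH q (fun w => e w.2) (fun w => Q w.1) = CH p e Q := by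
    rw [← p2 e Q]
    exact CH_supp h0 (fun _ _ => rfl) hQQ
  have a5 : 2 * CH p e K ≤ CH q (fun w => (e w.1, e w.2)) (fun w => (g w.1, Q w.1)) := by
    rw [← P2_joint hp K e, ← hq]
    refine CH_mono_cond h0 fun w w' hw hw' h => ?_
    exact Prod.ext (hg _ _ (hps w hw).1 (hps w' hw').1 h) (hQ _ _ (hps w hw).1 (hps w' hw').1 h)
  have a6 := CH_le_add h0 (fun w : Ω × Ω => g w.1) (fun w => (D w.1, D w.2))
    (fun w => ((e w.1, e w.2), Q w.1))
  have a7 := CH_subadd h0 (fun w : Ω × Ω => D w.1) (fun w => D w.2)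
    (fun w => ((e w.1, e w.2), Q w.1))
  have a8 : CH q (fun w => D w.1) (fun w => ((e w.1, e w.2), Q w.1)) ≤
      CH p D (fun ω => (Q ω, e ω)) := by
    rw [← p1 D (fun ω => (Q ω, e ω))]
    refine CH_mono_cond h0 fun w w' _ _ h => ?_
    simp only [Prod.mk.injEq] at h ⊢
    exact ⟨h.2, h.1.1⟩
  have a9 : CH q (fun w => D w.2) (fun w => ((e w.1, e w.2), Q w.1)) ≤
      CH p D (fun ω => (Q ω, e ω)) := by
    rw [← p2 D (fun ω => (Q ω, e ω))]
    refine CH_mono_cond h0 fun w w' hw hw' h => ?_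
    simp only [Prod.mk.injEq] at h ⊢
    exact ⟨by rw [← hQQ w hw, ← hQQ w' hw']; exact h.2, h.1.2⟩
  rw [p1 g Q] at a1
  rw [hq] at a1 a2 a3 a4 a5 a6 a7 a8 a9
  linarith

/-- **Short lists.** -/
theorem typ_list (hp : IsLaw p) (g : Ω → α) (Q : Ω → β) {b κ : ℝ} (hb : 0 < b) (hκ : 0 < κ)
    (h : CH p g Q ≤ b) : ∃ (T : Ω → Prop) (Λ : β → Finset α),
      Pe p (fun ω => ¬ T ω) ≤ κ ∧ (∀ v, ((Λ v).card : ℝ) ≤ Real.exp (b / κ)) ∧
      ∀ ω, T ω → g ω ∈ Λ (Q ω) := by
  classical
  have h0 := hp.nonneg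
  obtain ⟨l, hl⟩ : ∃ l : Ω → ℝ, l = fun ω => law p (fun ω => (g ω, Q ω)) (g ω, Q ω) := ⟨_, rfl⟩
  obtain ⟨lQ, hlQ⟩ : ∃ l : Ω → ℝ, l = fun ω => law p Q (Q ω) := ⟨_, rfl⟩
  have pl : ∀ ω, 0 < p ω → 0 < l ω := fun ω h => by
    rw [hl]; exact law_pos h0 (fun ω => (g ω, Q ω)) h
  have pQ : ∀ ω, 0 < p ω → 0 < lQ ω := fun ω h => by rw [hlQ]; exact law_pos h0 Q h
  have hle : ∀ ω, l ω ≤ lQ ω := fun ω => by
    rw [hl, hlQ]
    unfold law
    refine Finset.sum_le_sum fun ω' _ => ?_
    by_cases h1 : (g ω', Q ω') = (g ω, Q ω)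
    · rw [if_pos h1, if_pos (Prod.ext_iff.1 h1).2]
    · rw [if_neg h1]
      split_ifs
      · exact h0 ω'
      · exact le_rfl
  refine ⟨fun ω => 0 < p ω ∧ Real.exp (-(b / κ)) * lQ ω ≤ l ω,
    fun v => (Finset.univ.image g).filter (fun a => 0 < law p Q v ∧
      Real.exp (-(b / κ)) * law p Q v ≤ law p (fun ω => (g ω, Q ω)) (a, v)), ?_, ?_, ?_⟩
  · -- Markov
    have e1 : CH p g Q = ∑ ω, p ω * (Real.log (lQ ω) - Real.log (l ω)) := by
      unfold CH H
      rw [hl, hlQ]
      simp only [mul_sub, Finset.sum_sub_distrib]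
      ring
    have e2 : (b / κ) * Pe p (fun ω => ¬ (0 < p ω ∧ Real.exp (-(b / κ)) * lQ ω ≤ l ω)) ≤
        CH p g Q := by
      rw [e1, pe_sum, Finset.mul_sum]
      refine Finset.sum_le_sum fun ω _ => ?_
      rcases (h0 ω).eq_or_lt with hω | hω
      · rw [← hω]
        simp
      · have h1 : 0 ≤ Real.log (lQ ω) - Real.log (l ω) :=
          sub_nonneg.2 (Real.log_le_log (pl ω hω) (hle ω))
        by_cases h2 : 0 < p ω ∧ Real.exp (-(b / κ)) * lQ ω ≤ l ω
        · rw [if_neg (not_not.2 h2), mul_zero]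
          exact mul_nonneg hω.le h1
        · rw [if_pos h2, mul_comm]
          refine mul_le_mul_of_nonneg_left ?_ hω.le
          have h3 : l ω < Real.exp (-(b / κ)) * lQ ω := by
            by_contra hcon
            exact h2 ⟨hω, not_lt.1 hcon⟩
          have h4 := Real.log_lt_log (pl ω hω) h3
          rw [Real.log_mul (Real.exp_pos _).ne' (pQ ω hω).ne', Real.log_exp] at h4
          linarith
    have e3 := e2.trans h
    have hbk : 0 < b / κ := div_pos hb hκ
    have e4 : b / κ * Pe p (fun ω => ¬ (0 < p ω ∧ Real.exp (-(b / κ)) * lQ ω ≤ l ω)) ≤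
        b / κ * κ := by rw [div_mul_cancel₀ _ hκ.ne']; exact e3
    exact le_of_mul_le_mul_left e4 hbk
  · intro v
    by_cases hv : 0 < law p Q v
    · have h1 : (((Finset.univ.image g).filter (fun a => 0 < law p Q v ∧
          Real.exp (-(b / κ)) * law p Q v ≤ law p (fun ω => (g ω, Q ω)) (a, v))).card : ℝ) *
          (Real.exp (-(b / κ)) * law p Q v) ≤ law p Q v := by
        rw [← nsmul_eq_mul]
        refine (Finset.card_nsmul_le_sum _ (fun a => law p (fun ω => (g ω, Q ω)) (a, v)) _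
          fun a ha => (Finset.mem_filter.1 ha).2.2).trans ?_
        refine (Finset.sum_le_sum_of_subset_of_nonneg (Finset.filter_subset _ _)
          fun a _ _ => law_nonneg h0 _ _).trans ?_
        unfold law
        rw [Finset.sum_comm]
        refine Finset.sum_le_sum fun ω _ => ?_
        by_cases h2 : Q ω = v
        · rw [if_pos h2]
          refine (Finset.sum_le_sum (g := fun a => if a = g ω then p ω else 0)
            fun a _ => ?_).trans ?_
          · by_cases h3 : a = g ω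
            · rw [if_pos h3, if_pos (show (g ω, Q ω) = (a, v) by rw [h3, h2])]
            · rw [if_neg h3, if_neg (fun h => h3 (Prod.ext_iff.1 h).1.symm)]
          · rw [Finset.sum_ite_eq']
            split_ifs
            · exact le_rfl
            · exact h0 ω
        · rw [if_neg h2]
          refine (Finset.sum_eq_zero fun a _ => ?_).le
          rw [if_neg (fun h => h2 (Prod.ext_iff.1 h).2)]
      have h5 : (((Finset.univ.image g).filter (fun a => 0 < law p Q v ∧
          Real.exp (-(b / κ)) * law p Q v ≤ law p (fun ω => (g ω, Q ω)) (a, v))).card : ℝ) *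
          Real.exp (-(b / κ)) ≤ 1 := by
        have h6 : (((Finset.univ.image g).filter (fun a => 0 < law p Q v ∧
          Real.exp (-(b / κ)) * law p Q v ≤ law p (fun ω => (g ω, Q ω)) (a, v))).card : ℝ) *
          Real.exp (-(b / κ)) * law p Q v ≤ 1 * law p Q v := by linarith
        exact le_of_mul_le_mul_right h6 hv
      obtain ⟨N, hN⟩ : ∃ N : ℝ, N = (((Finset.univ.image g).filter (fun a => 0 < law p Q v ∧
          Real.exp (-(b / κ)) * law p Q v ≤ law p (fun ω => (g ω, Q ω)) (a, v))).card : ℝ) :=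
        ⟨_, rfl⟩
      rw [← hN, Real.exp_neg, ← div_eq_mul_inv, div_le_one (Real.exp_pos _)] at h5
      show (((Finset.univ.image g).filter (fun a => 0 < law p Q v ∧
          Real.exp (-(b / κ)) * law p Q v ≤ law p (fun ω => (g ω, Q ω)) (a, v))).card : ℝ) ≤ _
      rw [← hN]
      exact h5
    · show (((Finset.univ.image g).filter (fun a => 0 < law p Q v ∧
          Real.exp (-(b / κ)) * law p Q v ≤ law p (fun ω => (g ω, Q ω)) (a, v))).card : ℝ) ≤ _
      rw [Finset.filter_false_of_mem fun a _ h => hv h.1]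
      simp only [Finset.card_empty, Nat.cast_zero]
      exact (Real.exp_pos _).le
  · rintro ω ⟨h1, h2⟩
    refine Finset.mem_filter.2 ⟨Finset.mem_image_of_mem g (Finset.mem_univ ω), law_pos h0 Q h1, ?_⟩
    rw [hl, hlQ] at h2
    exact h2

end Pool.GN97
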