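import Pool.Agent.H97.GAIN.RCls

/-!
# A gain at a rate is impossible

`line_cls`: the slope of the affine representation of the own velocity is nearly constant along most
lines in the window. `gain_rate`: this contradicts the numbers.
-/

set_option autoImplicit false

namespace Pool.GN97

open Finset Real
open Pool.Agent.H49.Ent Pool.Agent.H32.Dense Pool.STK Pool.KA Pool.KSAT Pool.K2S Pool.PB Pool.GEN
open Pool.S6C Pool.LA91 Pool.RCD Pool.OWN72 Pool.MM97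
open Pool.STAT (cond_supp)
open Pool.KM7 (P2_isLaw P2_pos)
open Pool.JVE (pair_sel DpI)
open Pool.MIC6 (res_of)
open Pool.OWN17 (push2_fst push2_snd)

variable {m J : ℕ}

/-- Four events which cover. -/
theorem pe_cover {Ω : Type} [Fintype Ω] {q : Ω → ℝ} (hq : IsLaw q) {X Y Z U : Ω → Prop}
    (h : ∀ w, 0 < q w → X w ∨ Y w ∨ Z w ∨ U w) : 1 ≤ Pe q X + Pe q Y + Pe q Z + Pe q U := by
  classical
  rw [← hq.sum_one, Pe_eq, Pe_eq, Pe_eq, Pe_eq, ← Finset.sum_add_distrib,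
    ← Finset.sum_add_distrib, ← Finset.sum_add_distrib]
  refine Finset.sum_le_sum fun w _ => ?_
  have h0 := hq.nonneg w
  rcases h0.eq_or_lt with h1 | h1
  · rw [← h1]
    simp
  · have h2 : ∀ P : Prop, 0 ≤ (if P then q w else 0) := fun P => by
      split_ifs
      exacts [h0, le_rfl]
    have a1 := h2 (X w)
    have a2 := h2 (Y w)
    have a3 := h2 (Z w)
    have a4 := h2 (U w)
    rcases h w h1 with h3 | h3 | h3 | h3
    · rw [if_pos h3]
      linarith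
    · rw [if_pos h3] at a2 ⊢
      linarith
    · rw [if_pos h3] at a3 ⊢
      linarith
    · rw [if_pos h3] at a4 ⊢
      linarith

/-- **The slope is nearly constant along most lines** in the window. -/
theorem line_cls {S : PCl m} {C₀ : ℝ} (htm : TmC S C₀) {y : Fin m} {I : Finset (Fin m)}
    {v : Fin m} {W W' P M R x b c₁ η η' : ℝ} (hW1 : W ≤ 1) (hWW : W ≤ W') (hW1' : W' ≤ 1)
    (hη : RNum S (fun J F => ptr F J) (vg W) η) (hη' : RNum S (fun J F => ptr F J) (vg W') η')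
    (hx : 0 ≤ x) (hxM : 2 * x < M) (hPR : P ≤ R) (hR : 0 ≤ R) (hb : 0 < b) (hbc : 100 * b ≤ c₁)
    (hfr : FrD S y P W W' b) (hact : Bas S (fun J F A => c₁ * J ≤
      CH (Pool.Agent.H49.Ent.cond F.p A True) (fun ω => F.D ⌊x * J⌋₊ ω y) (ptr F J))) :
    Bas S (fun J F A => ∀ (e : ℕ) (a : PtT F → Fin m → ℝ) (c p q : PtT F → ℝ) (V : Type)
      (z : F.Ω → V), GainR F y I v ⌊W * J⌋₊ ⌊W' * J⌋₊ e ⌊M * J⌋₊ ⌊P * J⌋₊ ⌊R * J⌋₊ (b * J) A
        a c p q z → ∃ sel : LnT F → F.Ω, Pe F.p A ≤ 2 * Pe F.p (fun ω => A ω ∧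
        |q (ptr F J ω) - q (ptr F J (sel (slam F ⌊W * J⌋₊ ω)))| ≤
          1 / 2 ^ (⌊M * J⌋₊ - 2 * ⌊x * J⌋₊))) := by
  classical
  have hc : 0 < c₁ := by linarith
  obtain ⟨τ, hτ, Ja, hact'⟩ := hact
  obtain ⟨τg, hτg, Jg, hgam⟩ := gam_cls (I := I) (v := v) htm hW1 hWW hW1' hη hη'
    (by linarith : x ≤ M) hPR hR hb hc hfr ⟨τ, hτ, Ja, hact'⟩
  obtain ⟨J₂, hJ₂⟩ := exists_nat_ge (Real.log (1 / (1 / 8)) / (τ / 2))
  obtain ⟨J₃, hJ₃⟩ := exists_nat_ge ((Real.log 19 + 1) / b)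
  obtain ⟨J₄, hJ₄⟩ := exists_nat_ge (2 / (M - 2 * x))
  refine ⟨min (τ / 2) τg, lt_min (by linarith) hτg, Ja + Jg + J₂ + J₃ + J₄ + 1, ?_⟩
  intro J hJ F A hA e a c p q V z hG
  have aA : S.St (τ / 2) J F A := S.mono (min_le_left _ _) hA
  obtain ⟨𝒬, Q, hQ, hbits⟩ := hgam J (by omega) F A (S.mono (min_le_right _ _) hA) e a c p q V z hG
  have jr : ((Ja + Jg + J₂ + J₃ + J₄ + 1 : ℕ) : ℝ) ≤ J := by exact_mod_cast hJ
  push_cast at jr
  have n1 : (0 : ℝ) ≤ J₂ := Nat.cast_nonneg _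
  have n2 : (0 : ℝ) ≤ J₃ := Nat.cast_nonneg _
  have n3 : (0 : ℝ) ≤ J₄ := Nat.cast_nonneg _
  have n4 : (0 : ℝ) ≤ Ja := Nat.cast_nonneg _
  have n5 : (0 : ℝ) ≤ Jg := Nat.cast_nonneg _
  have hJ1 : (1 : ℝ) ≤ J := by linarith
  have hJ0 : (0 : ℝ) < J := by linarith
  have hlog : Real.log (1 / (1 / 8)) ≤ τ / 2 * J := by
    have h1 : Real.log (1 / (1 / 8)) / (τ / 2) ≤ J := by linarith
    rw [div_le_iff₀ (by linarith)] at h1
    linarith
  have hbJ : Real.log 19 + 1 ≤ b * J := by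
    have h1 : (Real.log 19 + 1) / b ≤ J := by linarith
    rw [div_le_iff₀ hb] at h1
    linarith
  have hMx : 2 ≤ (M - 2 * x) * J := by
    have h1 : 2 / (M - 2 * x) ≤ J := by linarith
    rw [div_le_iff₀ (by linarith)] at h1
    linarith
  obtain ⟨Mn, hMn⟩ : ∃ Mn, Mn = ⌊M * (J : ℝ)⌋₊ := ⟨_, rfl⟩
  obtain ⟨xn, hxn⟩ : ∃ xn, xn = ⌊x * (J : ℝ)⌋₊ := ⟨_, rfl⟩
  obtain ⟨Wn, hWn⟩ : ∃ Wn, Wn = ⌊W * (J : ℝ)⌋₊ := ⟨_, rfl⟩
  rw [← hMn, ← hxn] at hbits ⊢
  rw [← hWn] at hQ hG ⊢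
  rw [← hMn] at hG
  have hMxn : 2 * xn ≤ Mn := by
    have f1 : (xn : ℝ) ≤ x * J := by rw [hxn]; exact Nat.floor_le (by positivity)
    have f2 : M * (J : ℝ) - 1 < Mn := by rw [hMn]; exact Nat.sub_one_lt_floor _
    have h1 : ((2 * xn : ℕ) : ℝ) < (Mn : ℝ) + 1 := by
      push_cast
      nlinarith
    have h2 : 2 * xn < Mn + 1 := by exact_mod_cast h1
    omega
  obtain ⟨N, hN⟩ : ∃ N, N = Mn - xn := ⟨_, rfl⟩
  rw [← hN] at hbits
  have hA0 := pos_of htm _ J F A aA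
  have hr := isLaw_cond F.isLaw hA0
  obtain ⟨r, hrr⟩ : ∃ r, r = Pool.Agent.H49.Ent.cond F.p A True := ⟨_, rfl⟩
  rw [← hrr] at hr hbits
  have hrA : ∀ ω, 0 < r ω → A ω := fun ω hω => by
    rw [hrr] at hω
    exact cond_supp hω
  have hne : Nonempty F.Ω := by
    by_contra hcon
    rw [not_nonempty_iff] at hcon
    have h2 := hr.sum_one
    rw [Finset.univ_eq_empty, Finset.sum_empty] at h2
    exact zero_ne_one h2
  -- short lists
  obtain ⟨T, Λ, hT, hΛ, hTΛ⟩ := typ_list hr (gd F p q N) Q (b := 5 * b * J) (κ := 1 / 8)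
    (by positivity) (by norm_num) hbits
  obtain ⟨far, hfar⟩ : ∃ far : F.Ω → F.Ω → Prop, far = fun ω ω' =>
      1 / 2 ^ (Mn - 2 * xn) < |q (ptr F J ω) - q (ptr F J ω')| := ⟨_, rfl⟩
  obtain ⟨Rl, hRl⟩ : ∃ Rl : F.Ω → F.Ω → Prop, Rl = fun ω ω' =>
      A ω' ∧ slam F Wn ω = slam F Wn ω' ∧ T ω ∧ T ω' ∧ far ω ω' := ⟨_, rfl⟩
  have pN : (0 : ℝ) < 2 ^ N := by positivity
  have px : (0 : ℝ) < 2 ^ xn := by positivity
  have pM : (0 : ℝ) < 2 ^ Mn := by positivity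
  have hNx : (2 : ℝ) ^ N = 2 ^ (Mn - 2 * xn) * 2 ^ xn := by
    rw [← pow_add]
    congr 1
    omega
  have hNM : (2 : ℝ) ^ N ≤ 2 ^ Mn := pow_le_pow_right₀ (by norm_num) (by omega)
  -- the lists contain the velocity
  have main : Pe (Pool.KM7.P2 r (slam F Wn)) (fun w => Rl w.1 w.2) ≤ 1 / 8 := by
    by_contra hcon
    rw [not_le] at hcon
    obtain ⟨sel, hsel⟩ := pair_sel hr.nonneg (slam F Wn) Rl
    have h1 := hcon.trans_le hsel
    obtain ⟨Bd, hBd⟩ : ∃ Bd : F.Ω → Prop, Bd = fun ω =>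
      A ω ∧ Rl ω (sel (slam F Wn ω)) := ⟨_, rfl⟩
    have hsub : Sub Bd A := fun ω hω => by
      rw [hBd] at hω
      exact hω.1
    have hbig : 1 / 8 * Pe F.p A < Pe F.p Bd := by
      rw [hBd, ← pe_cond hA0, ← hrr]
      exact mul_lt_mul_of_pos_right h1 hA0
    have hBd0 : 0 < Pe F.p Bd := (mul_pos (by norm_num) hA0).trans hbig
    have hS := res_of (by linarith : (0 : ℝ) ≤ τ / 2) aA hsub
      (by norm_num : (0 : ℝ) < 1 / (1 / 8)) hlog (by
        rw [one_div_one_div]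
        linarith)
    have e1 : 2 * (τ / 2) = τ := by ring
    rw [e1] at hS
    have h2 : c₁ * J ≤ CH (Pool.Agent.H49.Ent.cond F.p Bd True) (fun ω => F.D xn ω y)
        (ptr F J) := by
      rw [hxn]
      exact hact' J (by omega) F Bd hS
    have hq := isLaw_cond F.isLaw hBd0
    have hq0 := hq.nonneg
    have hBs : ∀ ω, 0 < Pool.Agent.H49.Ent.cond F.p Bd True ω → Bd ω := fun ω h => cond_supp h
    obtain ⟨⟨φ, hφ⟩, ψ, hψ⟩ := hQ
    have h3 : CH (Pool.Agent.H49.Ent.cond F.p Bd True) (fun ω => F.D xn ω y) (ptr F J) ≤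
        CH (Pool.Agent.H49.Ent.cond F.p Bd True) (fun ω => F.D xn ω y) Q :=
      CH_mono_cond hq0 fun ω ω' h h' e => by
        rw [hφ ω (hsub ω (hBs ω h)), hφ ω' (hsub ω' (hBs ω' h')), e]
    obtain ⟨G2, hG2⟩ : ∃ G2 : F.Ω → (Fin 2 → ℤ) × (Fin 2 → ℤ), G2 = fun ω =>
      (gd F p q N ω, gd F p q N (sel (slam F Wn ω))) := ⟨_, rfl⟩
    have h4 := CH_le_add hq0 (fun ω => F.D xn ω y) G2 Q
    have h5 : CH (Pool.Agent.H49.Ent.cond F.p Bd True) G2 Q ≤ 80 * b * J := by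
      refine (CH_le_card hq0 hq.sum_one G2 Q (fun v => Λ v ×ˢ Λ v) ?_).trans ?_
      · intro ω hω
        have k1 := hBs ω hω
        rw [hBd, hRl] at k1
        obtain ⟨k2, k3, k4, k5, k6, k7⟩ := k1
        rw [hG2]
        refine Finset.mem_product.2 ⟨hTΛ ω k5, ?_⟩
        have e2 : Q ω = Q (sel (slam F Wn ω)) := by
          rw [hψ ω k2, hψ _ k3, ← k4]
        show gd F p q N (sel (slam F Wn ω)) ∈ Λ (Q ω)
        rw [e2]
        exact hTΛ _ k6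
      · have h6 : ∀ v, Real.log ((Λ v ×ˢ Λ v).card : ℝ) ≤ 80 * b * J := by
          intro v
          rw [Finset.card_product]
          push_cast
          have h7 := hΛ v
          have h8 : (0 : ℝ) ≤ (Λ v).card := Nat.cast_nonneg _
          rcases h8.eq_or_lt with h9 | h9
          · rw [← h9, zero_mul, Real.log_zero]
            positivity
          · rw [Real.log_mul h9.ne' h9.ne']
            have h10 := Real.log_le_log h9 h7
            rw [Real.log_exp] at h10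
            have e3 : 5 * b * J / (1 / 8) = 40 * b * J := by ring
            rw [e3] at h10
            linarith
        refine (Ex_mono hq0 fun ω _ => h6 (Q ω)).trans ?_
        rw [Ex_const hq.sum_one]
    have h6 : CH (Pool.Agent.H49.Ent.cond F.p Bd True) (fun ω => F.D xn ω y)
        (fun ω => (G2 ω, Q ω)) ≤ Real.log (2 * (8 + 1) + 1) := by
      refine near_few hq (fun ω => F.d ω y) (fun ω => (G2 ω, Q ω)) (M := 8)
        fun ω ω' hω hω' h => ?_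
      have k1 := hBs ω hω
      have k1' := hBs ω' hω'
      rw [hBd, hRl] at k1 k1'
      obtain ⟨k2, k3, k4, k5, k6, k7⟩ := k1
      obtain ⟨k2', k3', k4', k5', k6', k7'⟩ := k1'
      rw [hfar] at k7 k7'
      rw [hG2] at h
      simp only [Prod.mk.injEq] at h
      obtain ⟨⟨f1, f2⟩, -⟩ := h
      obtain ⟨g1, g2⟩ := gd_eq f1
      obtain ⟨g3, g4⟩ := gd_eq f2
      have rel : ∀ o s : F.Ω, A o → A s → slam F Wn o = slam F Wn s →
          |(p (ptr F J o) - p (ptr F J s)) + (q (ptr F J o) - q (ptr F J s)) * F.d o y| ≤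
            2 * (1 / 2 ^ Mn) := by
        intro o s ho hs e
        have e1 : F.l o = F.l s := (Prod.ext_iff.1 e).1
        have e2 : F.d o = F.d s := (Prod.ext_iff.1 e1).2
        have e3 := hG.sam ho hs e
        have r1 := hG.rep o ho
        have r2 := hG.rep s hs
        rw [← e2, ← e3] at r2
        have e4 : (p (ptr F J o) - p (ptr F J s)) + (q (ptr F J o) - q (ptr F J s)) * F.d o y =
            (ow F I v a c o - p (ptr F J s) - q (ptr F J s) * F.d o y) -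
            (ow F I v a c o - p (ptr F J o) - q (ptr F J o) * F.d o y) := by ring
        rw [e4]
        refine (abs_sub _ _).trans ?_
        linarith
      have hfin := recE (η := 1 / 2 ^ N) (δ := 1 / 2 ^ Mn)
        (ρ := 1 / 2 ^ (Mn - 2 * xn)) (by positivity)
        (rel ω _ k2 k3 k4) (rel ω' _ k2' k3' k4') g1 g3 g2 g4 (F.dir ω' y) k7.le
      refine hfin.trans ?_
      have h7 : (1 : ℝ) / 2 ^ Mn ≤ 1 / 2 ^ N := one_div_le_one_div_of_le pN hNM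
      have p2 : (0 : ℝ) < 2 ^ (Mn - 2 * xn) := by positivity
      rw [div_le_div_iff₀ (by positivity) px]
      have h8 : (4 * (1 / 2 ^ Mn) + 4 * (1 / 2 ^ N)) * (2 : ℝ) ^ xn ≤
          (8 * (1 / 2 ^ N)) * 2 ^ xn := mul_le_mul_of_nonneg_right (by linarith) px.le
      refine h8.trans (le_of_eq ?_)
      rw [hNx]
      field_simp
    have e19 : (2 : ℝ) * (8 + 1) + 1 = 19 := by norm_num
    rw [e19] at h6
    have h7 : 100 * b * J ≤ c₁ * J := mul_le_mul_of_nonneg_right hbc hJ0.le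
    nlinarith
  -- most pairs are near
  have hl2 := P2_isLaw hr (slam F Wn)
  have hcov := pe_cover hl2 (X := fun w => A w.2 ∧ ¬ far w.1 w.2) (Y := fun w => Rl w.1 w.2)
    (Z := fun w => ¬ T w.1) (U := fun w => ¬ T w.2) (fun w hw => by
      obtain ⟨h1, h2, h3⟩ := (P2_pos hr w).mp hw
      by_cases h4 : T w.1
      · by_cases h5 : T w.2
        · by_cases h6 : far w.1 w.2
          · right; left
            rw [hRl]
            exact ⟨hrA _ h2, h3, h4, h5, h6⟩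
          · left
            exact ⟨hrA _ h2, h6⟩
        · right; right; right
          exact h5
      · right; right; left
        exact h4)
  have hm1 : Pe (Pool.KM7.P2 r (slam F Wn)) (fun w => ¬ T w.1) = Pe r (fun ω => ¬ T ω) :=
    (push2_fst hr (slam F Wn)).law (fun ω => ¬ T ω) True
  have hm2 : Pe (Pool.KM7.P2 r (slam F Wn)) (fun w => ¬ T w.2) = Pe r (fun ω => ¬ T ω) :=
    (push2_snd hr (slam F Wn)).law (fun ω => ¬ T ω) True
  rw [hm1, hm2] at hcov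
  obtain ⟨sel, hsel⟩ := pair_sel hr.nonneg (slam F Wn) (fun ω ω' => A ω' ∧ ¬ far ω ω')
  refine ⟨sel, ?_⟩
  have h1 : 1 / 2 ≤ Pe r (fun ω => A (sel (slam F Wn ω)) ∧ ¬ far ω (sel (slam F Wn ω))) := by
    linarith
  have h2 := mul_le_mul_of_nonneg_right h1 hA0.le
  rw [hrr, pe_cond hA0] at h2
  have h3 : Pe F.p (fun ω => A ω ∧ A (sel (slam F Wn ω)) ∧ ¬ far ω (sel (slam F Wn ω))) ≤
      Pe F.p (fun ω => A ω ∧ |q (ptr F J ω) - q (ptr F J (sel (slam F Wn ω)))| ≤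
        1 / 2 ^ (Mn - 2 * xn)) := by
    rw [Pe_eq, Pe_eq]
    refine Finset.sum_le_sum fun ω _ => ?_
    by_cases h4 : A ω ∧ A (sel (slam F Wn ω)) ∧ ¬ far ω (sel (slam F Wn ω))
    · rw [if_pos h4, if_pos ⟨h4.1, by
        have h5 := h4.2.2
        rw [hfar] at h5
        exact not_lt.1 h5⟩]
    · rw [if_neg h4]
      split_ifs
      exacts [F.isLaw.nonneg ω, le_rfl]
  linarith

/-- **A gain at a rate is impossible.** -/
theorem gain_rate {S : PCl m} (hS : S.Ne) {C₀ : ℝ} (htm : TmC S C₀) {y : Fin m}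
    {I : Finset (Fin m)} (hy : y ∈ I) {v : Fin m} {W W' P M R x b c₁ η η' r s κ₀ : ℝ}
    (hW0 : 0 ≤ W)
    (hW1 : W ≤ 1) (hWW : W ≤ W') (hW1' : W' ≤ 1)
    (hη : RNum S (fun J F => ptr F J) (vg W) η) (hη' : RNum S (fun J F => ptr F J) (vg W') η')
    (hx : 0 ≤ x) (hPR : P ≤ R) (hR : 0 ≤ R) (hb : 0 < b) (hbc : 100 * b ≤ c₁)
    (hfr : FrD S y P W W' b) (hact : Bas S (fun J F A => c₁ * J ≤
      CH (Pool.Agent.H49.Ent.cond F.p A True) (fun ω => F.D ⌊x * J⌋₊ ω y) (ptr F J)))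
    {L : Finset (Fin m) → Fin m → ℝ → ℝ → ℝ} (hL : LamW S L) (hs : 0 < s)
    (hLW : W ≤ L I v W r) (hLs : L I v W r + 2 * s ≤ 1)
    (hM : L I v W r - W + s + 2 * x < M) (hκ₀ : 0 < κ₀)
    (hgain : ∀ e₀ : ℝ, 0 < e₀ → ∃ e : ℝ, 0 < e ∧ e ≤ e₀ ∧
      Bas S (fun J F A => ∃ (B : F.Ω → Prop) (a : PtT F → Fin m → ℝ) (c p q : PtT F → ℝ)
        (V : Type) (z : F.Ω → V), Sub B A ∧ κ₀ * Pe F.p A ≤ Pe F.p B ∧
        GainR F y I v ⌊W * J⌋₊ ⌊W' * J⌋₊ ⌊e * J⌋₊ ⌊M * J⌋₊ ⌊P * J⌋₊ ⌊R * J⌋₊ (b * J) B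
          a c p q z)) : False := by
  classical
  obtain ⟨d, hd, hlv⟩ := lvl_cls hL hW0 hs hLW hLs
  obtain ⟨e, he, hed, τh, hτh, Jh, hgn⟩ := hgain d hd
  obtain ⟨δ, hδ, τl, hτl, Jl, hl⟩ := hlv e he hed
  obtain ⟨τg, hτg, Jg, hgs⟩ := line_cls (I := I) (v := v) htm hW1 hWW hW1' hη hη' hx
    (by linarith : 2 * x < M) hPR hR hb hbc hfr hact
  obtain ⟨J₁, hJ₁⟩ := exists_nat_ge (Real.log (1 / κ₀) / (τg / 2))
  obtain ⟨J₂, hJ₂⟩ := exists_nat_ge (2 / (M - (L I v W r - W + s + 2 * x)))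
  obtain ⟨J₃, hJ₃⟩ := exists_nat_ge ((Real.log (2 / κ₀) + 1) / δ)
  obtain ⟨J, hJ, F, A, hA⟩ := hS (min τl (min (τg / 2) τh))
    (lt_min hτl (lt_min (by linarith) hτh)) (Jl + Jg + Jh + J₁ + J₂ + J₃)
  have a1 : S.St τl J F A := S.mono (min_le_left _ _) hA
  have a2 : S.St (τg / 2) J F A := S.mono ((min_le_right _ _).trans (min_le_left _ _)) hA
  have a3 : S.St τh J F A := S.mono ((min_le_right _ _).trans (min_le_right _ _)) hA
  have hA0 := pos_of htm _ J F A a1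
  have jr : ((Jl + Jg + Jh + J₁ + J₂ + J₃ : ℕ) : ℝ) ≤ J := by exact_mod_cast hJ
  push_cast at jr
  have n1 : (0 : ℝ) ≤ J₁ := Nat.cast_nonneg _
  have n2 : (0 : ℝ) ≤ J₂ := Nat.cast_nonneg _
  have n3 : (0 : ℝ) ≤ Jl := Nat.cast_nonneg _
  have n4 : (0 : ℝ) ≤ Jg := Nat.cast_nonneg _
  have n5 : (0 : ℝ) ≤ Jh := Nat.cast_nonneg _
  have n6 : (0 : ℝ) ≤ J₃ := Nat.cast_nonneg _
  have hJ0 : (0 : ℝ) ≤ J := Nat.cast_nonneg J
  have q1 : Real.log (1 / κ₀) ≤ τg / 2 * J := by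
    have h1 : Real.log (1 / κ₀) / (τg / 2) ≤ (J : ℝ) := by linarith
    rw [div_le_iff₀ (by linarith)] at h1
    linarith
  have q2 : 2 ≤ (M - (L I v W r - W + s + 2 * x)) * J := by
    have h1 : 2 / (M - (L I v W r - W + s + 2 * x)) ≤ (J : ℝ) := by linarith
    rw [div_le_iff₀ (by linarith)] at h1
    linarith
  have q3 : Real.log (2 / κ₀) + 1 ≤ δ * J := by
    have h1 : (Real.log (2 / κ₀) + 1) / δ ≤ (J : ℝ) := by linarith
    rw [div_le_iff₀ hδ] at h1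
    linarith
  obtain ⟨B, a, c, p, q, V, z, b1, b2, hG⟩ := hgn J (by omega) F A a3
  have hBS : S.St τg J F B := by
    have hS' := res_of (by linarith : (0 : ℝ) ≤ τg / 2) a2 b1
      (by positivity : (0 : ℝ) < 1 / κ₀) q1 (by
        rw [one_div, ← div_eq_inv_mul, le_div_iff₀ hκ₀]
        linarith)
    have e1 : 2 * (τg / 2) = τg := by ring
    rwa [e1] at hS'
  obtain ⟨sel, hsel⟩ := hgs J (by omega) F B hBS _ a c p q V z hG
  have f1 : (⌊(L I v W r - W + s) * (J : ℝ)⌋₊ : ℝ) ≤ (L I v W r - W + s) * J :=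
    Nat.floor_le (mul_nonneg (by linarith) hJ0)
  have f2 : (⌊x * (J : ℝ)⌋₊ : ℝ) ≤ x * J := Nat.floor_le (by positivity)
  have f3 : M * (J : ℝ) - 1 < ⌊M * (J : ℝ)⌋₊ := Nat.sub_one_lt_floor _
  have f4 : ⌊(L I v W r - W + s) * (J : ℝ)⌋₊ + 2 * ⌊x * (J : ℝ)⌋₊ ≤ ⌊M * J⌋₊ := by
    have h1 : ((⌊(L I v W r - W + s) * (J : ℝ)⌋₊ + 2 * ⌊x * (J : ℝ)⌋₊ : ℕ) : ℝ) <
        ⌊M * J⌋₊ + 1 := by
      push_cast
      nlinarith
    have h2 : ⌊(L I v W r - W + s) * (J : ℝ)⌋₊ + 2 * ⌊x * (J : ℝ)⌋₊ < ⌊M * J⌋₊ + 1 := by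
      exact_mod_cast h1
    omega
  have hca : ∀ k, ∃ f' : LnT F → ℝ, k ∈ I → ∀ ω, B ω →
      a (ptr F J ω) k = f' (slam F ⌊W * J⌋₊ ω) := by
    intro k
    by_cases hk : k ∈ I
    · obtain ⟨f', hf⟩ := hG.ca k hk
      exact ⟨f', fun _ => hf⟩
    · exact ⟨fun _ => 0, fun h => absurd h hk⟩
  choose af haf using hca
  obtain ⟨M', hM'⟩ : ∃ M', M' = ⌊M * (J : ℝ)⌋₊ - 2 * ⌊x * (J : ℝ)⌋₊ := ⟨_, rfl⟩
  rw [← hM'] at hsel
  have hMM : M' ≤ ⌊M * (J : ℝ)⌋₊ := by omega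
  obtain ⟨B', hB'⟩ : ∃ B' : F.Ω → Prop, B' = fun ω => B ω ∧
      |q (ptr F J ω) - q (ptr F J (sel (slam F ⌊W * J⌋₊ ω)))| ≤ 1 / 2 ^ M' := ⟨_, rfl⟩
  rw [← hB'] at hsel
  have hB'B : Sub B' B := fun ω hω => by
    rw [hB'] at hω
    exact hω.1
  have hdp : DpI F B' I v ⌊e * J⌋₊ M' (fun s k => a s k + if k = y then q s else 0)
      (fun s => c s + p s) := by
    intro ω hω
    have hωB := hB'B ω hω
    refine ⟨hG.bda ω hωB, hG.bdc ω hωB, ?_⟩
    have h1 := hG.rep ω hωB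
    unfold ow at h1
    have e1 : ∑ k ∈ I, (a (ptr F J ω) k + if k = y then q (ptr F J ω) else 0) * F.d ω k =
        ∑ k ∈ I, a (ptr F J ω) k * F.d ω k + q (ptr F J ω) * F.d ω y := by
      simp only [add_mul, Finset.sum_add_distrib, ite_mul, zero_mul]
      congr 1
      rw [Finset.sum_ite_eq' I y, if_pos hy]
    show |F.d ω v - (c (ptr F J ω) + p (ptr F J ω)) -
      ∑ k ∈ I, (a (ptr F J ω) k + if k = y then q (ptr F J ω) else 0) * F.d ω k| ≤ 1 / 2 ^ M'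
    rw [e1]
    have e2 : F.d ω v - (c (ptr F J ω) + p (ptr F J ω)) - (∑ k ∈ I, a (ptr F J ω) k * F.d ω k +
        q (ptr F J ω) * F.d ω y) = F.d ω v - c (ptr F J ω) -
        ∑ k ∈ I, a (ptr F J ω) k * F.d ω k - p (ptr F J ω) - q (ptr F J ω) * F.d ω y := by ring
    rw [e2]
    exact h1.trans (one_div_le_one_div_of_le (by positivity)
      (pow_le_pow_right₀ (by norm_num) hMM))
  have hfin := hl J (by omega) F A a1 B' M' _ _
    (fun s k => af k s + if k = y then q (ptr F J (sel s)) else 0)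
    (fun ω hω => b1 ω (hB'B ω hω)) hdp (fun ω hω k hk => by
      show |(af k (slam F ⌊W * J⌋₊ ω) + if k = y then
        q (ptr F J (sel (slam F ⌊W * J⌋₊ ω))) else 0) -
        (a (ptr F J ω) k + if k = y then q (ptr F J ω) else 0)| ≤ 1 / 2 ^ M'
      rw [← haf k hk ω (hB'B ω hω)]
      by_cases h0 : k = y
      · rw [if_pos h0, if_pos h0]
        have e3 : a (ptr F J ω) k + q (ptr F J (sel (slam F ⌊W * J⌋₊ ω))) -
            (a (ptr F J ω) k + q (ptr F J ω)) =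
            -(q (ptr F J ω) - q (ptr F J (sel (slam F ⌊W * J⌋₊ ω)))) := by ring
        rw [e3, abs_neg]
        rw [hB'] at hω
        exact hω.2
      · rw [if_neg h0, if_neg h0, sub_self, abs_zero]
        positivity) (by rw [hM']; omega)
  -- the masses
  have m1 : κ₀ * Pe F.p A ≤ 2 * (Real.exp (-(δ * J)) * Pe F.p A) := by linarith
  rw [← mul_assoc] at m1
  have m2 := le_of_mul_le_mul_right m1 hA0
  have m3 : κ₀ * Real.exp (δ * J) ≤ 2 := by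
    have h1 := mul_le_mul_of_nonneg_right m2 (Real.exp_pos (δ * J)).le
    have h2 : 2 * Real.exp (-(δ * J)) * Real.exp (δ * J) = 2 := by
      rw [mul_assoc, ← Real.exp_add]
      simp
    linarith
  have m4 : Real.exp (δ * J) ≤ 2 / κ₀ := by
    rw [le_div_iff₀ hκ₀]
    linarith
  have m5 := Real.log_le_log (Real.exp_pos _) m4
  rw [Real.log_exp] at m5
  linarith

end Pool.GN97
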