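import Pool.Agent.H97.GAIN.Sel

/-!
# A gain of the own velocity is impossible

`gain_step`: on a part of the event of a gain the slopes of the affine representation at the exact
point are functions of the line and of the window, up to a small loss. `gain_void`: this
contradicts the numbers.
-/

set_option autoImplicit false

namespace Pool.GN97

open Finset Real
open Pool.Agent.H49.Ent Pool.Agent.H32.Dense Pool.STK Pool.KA Pool.KSAT Pool.K2S Pool.PB Pool.GEN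
open Pool.S6C Pool.LA91 Pool.RCD Pool.OWN72 Pool.MM97
open Pool.JVE (DpI)
open Pool.MIC6 (res_of)

variable {m : ℕ}

/-- **Closed slopes** on a part of the event, in a class. -/
theorem gain_step {S : PCl m} {C₀ : ℝ} (htm : TmC S C₀) {I₀ I : Finset (Fin m)} (hI : I₀ ⊆ I)
    {v : Fin m} {W P η : ℝ} (hW1 : W ≤ 1) (hη : RNum S (fun J F => ptr F J) (vg W) η)
    (hspr : SprI S I₀) (hfr : FrX S I₀ W P) {κ γ : ℝ} (hκ : 0 < κ) (hγ : 0 < γ) :
    Bas S (fun J F A => ∀ (e M : ℕ) (a : PtT F → Fin m → ℝ) (c : PtT F → ℝ) (p : PtT F → ℝ)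
      (q : PtT F → Fin m → ℝ) (V : Type) (z : F.Ω → V) (φ : (Fin m → ℤ) × V → ℝ),
      GainD F I₀ I v ⌊W * J⌋₊ e M ⌊P * J⌋₊ A a c p q z φ →
      ∃ (B : F.Ω → Prop) (a' : PtT F → Fin m → ℝ) (th : LnT F → Fin m → ℝ), Sub B A ∧
        Real.exp (-(κ * J)) * Pe F.p A ≤ 2 * Pe F.p B ∧
        (∀ M', M' + ⌊γ * J⌋₊ + (m + 4) ≤ M →
          DpI F B I v e M' a' (fun y => c y + p y) ∧ ∀ ω, B ω → ∀ k ∈ I,
          |th (slam F ⌊W * J⌋₊ ω) k - a' (ptr F J ω) k| ≤ 1 / 2 ^ M')) := by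
  classical
  obtain ⟨τs, hτs, Js, hsp⟩ := hspr γ (1 / 2) hγ (by norm_num)
  obtain ⟨κ₁, hκ₁⟩ : ∃ κ₁, κ₁ = min κ (τs / 2) := ⟨_, rfl⟩
  have k0 : 0 < κ₁ := by rw [hκ₁]; exact lt_min hκ (by linarith)
  have k1 : κ₁ ≤ κ := by rw [hκ₁]; exact min_le_left _ _
  have k2 : κ₁ ≤ τs / 2 := by rw [hκ₁]; exact min_le_right _ _
  obtain ⟨τf, hτf, Jf, hfs⟩ := free_sel htm hW1 hη hfr k0
  refine ⟨min τf (τs / 2), lt_min hτf (by linarith), max Js Jf, ?_⟩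
  intro J hJ F A hA e M a c p q V z φ hG
  have j1 : Js ≤ J := (le_max_left _ _).trans hJ
  have j2 : Jf ≤ J := (le_max_right _ _).trans hJ
  have hJ0 : (0 : ℝ) ≤ J := Nat.cast_nonneg J
  obtain ⟨V', z', pr, sel, B, hcl, hpr, hBA, hPB, hB⟩ :=
    hfs J j2 F A (S.mono (min_le_left _ _) hA) V z hG.cz
  have hM : (0 : ℝ) < 2 ^ M := by positivity
  -- the affine functions are near
  have key : ∀ ω, B ω → |(p (ptr F J ω) - p (ptr F J (sel (z' ω)))) + ∑ k ∈ I₀,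
      (q (ptr F J ω) k - q (ptr F J (sel (z' ω))) k) * F.d ω k| ≤ (m + 4) / 2 ^ M := by
    intro ω hω
    obtain ⟨h1, h2, ω', h3, h4, h5, h6⟩ := hB ω hω
    refine gain_one (B := A) (z := z) (φ := φ) hG.rep hG.siz hG.fn (hBA ω hω) h3 h1 h4 ?_ h6
    rw [hpr ω' h3, hpr ω (hBA ω hω), h5]
  obtain ⟨ζ, hζ⟩ := hcl.1
  have hE0 : (0 : ℝ) < (m + 4) / 2 ^ M := by positivity
  have hBS : S.St τs J F B := by
    have h1 := S.res (τ' := κ₁) k0.le hA hBA hPB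
    refine S.mono ?_ h1
    have := min_le_right τf (τs / 2)
    linarith
  obtain ⟨B', b1, b2, b3⟩ := hsp J j1 F B hBS
    (fun y => p y - p (ptr F J (sel (ζ y)))) (fun y k => q y k - q (ptr F J (sel (ζ y))) k)
    _ hE0 (fun ω hω => by
      have h1 := key ω hω
      rw [hζ ω (hBA ω hω)] at h1
      exact h1)
  obtain ⟨ψ, hψ⟩ := hcl.2
  have hca : ∀ k, ∃ f' : LnT F → ℝ, k ∈ I → ∀ ω, A ω →
      a (ptr F J ω) k = f' (slam F ⌊W * J⌋₊ ω) := by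
    intro k
    by_cases hk : k ∈ I
    · obtain ⟨f', hf⟩ := hG.ca k hk
      exact ⟨f', fun _ => hf⟩
    · exact ⟨fun _ => 0, fun h => absurd h hk⟩
  choose af haf using hca
  refine ⟨B', fun y k => a y k + if k ∈ I₀ then q y k else 0,
    fun s k => af k s + if k ∈ I₀ then q (ptr F J (sel (ψ s))) k else 0,
    fun ω hω => hBA ω (b1 ω hω), ?_, ?_⟩
  · have h1 : Real.exp (-(κ * J)) * Pe F.p A ≤ Real.exp (-(κ₁ * J)) * Pe F.p A := by
      refine mul_le_mul_of_nonneg_right (Real.exp_le_exp.2 ?_) (Pe_nonneg F.isLaw A)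
      have := mul_le_mul_of_nonneg_right k1 hJ0
      linarith
    linarith
  intro M' hM'
  have hMM : M' ≤ M := by omega
  have hM'0 : (0 : ℝ) < 2 ^ M' := by positivity
  refine ⟨fun ω hω => ⟨fun k hk => ?_, hG.bdc ω (hBA ω (b1 ω hω)), ?_⟩, fun ω hω k hk => ?_⟩
  · have hωA := hBA ω (b1 ω hω)
    show |a (ptr F J ω) k + if k ∈ I₀ then q (ptr F J ω) k else 0| ≤ 2 ^ e
    by_cases h0 : k ∈ I₀
    · rw [if_pos h0]
      exact hG.bdq ω hωA k h0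
    · rw [if_neg h0, add_zero]
      exact hG.bda ω hωA k hk
  · have hωA := hBA ω (b1 ω hω)
    have h1 := hG.rep ω hωA
    unfold ow at h1
    have e1 : ∑ k ∈ I, (a (ptr F J ω) k + if k ∈ I₀ then q (ptr F J ω) k else 0) * F.d ω k =
        ∑ k ∈ I, a (ptr F J ω) k * F.d ω k + ∑ k ∈ I₀, q (ptr F J ω) k * F.d ω k := by
      simp only [add_mul, Finset.sum_add_distrib, ite_mul, zero_mul]
      congr 1
      rw [← Finset.sum_filter]
      congr 1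
      ext k
      rw [Finset.mem_filter]
      exact ⟨fun h => h.2, fun h => ⟨hI h, h⟩⟩
    show |F.d ω v - (c (ptr F J ω) + p (ptr F J ω)) -
      ∑ k ∈ I, (a (ptr F J ω) k + if k ∈ I₀ then q (ptr F J ω) k else 0) * F.d ω k| ≤ 1 / 2 ^ M'
    rw [e1]
    have e2 : F.d ω v - (c (ptr F J ω) + p (ptr F J ω)) - (∑ k ∈ I, a (ptr F J ω) k * F.d ω k +
        ∑ k ∈ I₀, q (ptr F J ω) k * F.d ω k) = F.d ω v - c (ptr F J ω) -
        ∑ k ∈ I, a (ptr F J ω) k * F.d ω k - p (ptr F J ω) -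
        ∑ k ∈ I₀, q (ptr F J ω) k * F.d ω k := by ring
    rw [e2]
    exact h1.trans (one_div_le_one_div_of_le hM'0 (pow_le_pow_right₀ (by norm_num) hMM))
  · have hωB := b1 ω hω
    have hωA := hBA ω hωB
    show |(af k (slam F ⌊W * J⌋₊ ω) + if k ∈ I₀ then
      q (ptr F J (sel (ψ (slam F ⌊W * J⌋₊ ω)))) k else 0) -
      (a (ptr F J ω) k + if k ∈ I₀ then q (ptr F J ω) k else 0)| ≤ 1 / 2 ^ M'
    rw [← haf k hk ω hωA, ← hψ ω hωA]
    by_cases h0 : k ∈ I₀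
    · rw [if_pos h0, if_pos h0]
      have h1 := b3 ω hω k h0
      have h1' : |q (ptr F J ω) k - q (ptr F J (sel (ζ (ptr F J ω)))) k| ≤
        2 ^ ⌊γ * J⌋₊ * ((m + 4) / 2 ^ M) := h1
      rw [← hζ ω hωA] at h1'
      have e3 : a (ptr F J ω) k + q (ptr F J (sel (z' ω))) k -
          (a (ptr F J ω) k + q (ptr F J ω) k) =
          -(q (ptr F J ω) k - q (ptr F J (sel (z' ω))) k) := by ring
      rw [e3, abs_neg]
      refine h1'.trans ?_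
      rw [mul_div_assoc', div_le_div_iff₀ hM hM'0, one_mul]
      have h2 : (m : ℝ) + 4 ≤ 2 ^ (m + 4) := by
        have h3 : m + 4 < 2 ^ (m + 4) := Nat.lt_two_pow_self
        exact_mod_cast h3.le
      calc (2 : ℝ) ^ ⌊γ * J⌋₊ * (m + 4) * 2 ^ M' ≤ 2 ^ ⌊γ * J⌋₊ * 2 ^ (m + 4) * 2 ^ M' := by
            refine mul_le_mul_of_nonneg_right (mul_le_mul_of_nonneg_left h2 (by positivity))
              hM'0.le
        _ = 2 ^ (M' + ⌊γ * J⌋₊ + (m + 4)) := by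
            rw [pow_add, pow_add]
            ring
        _ ≤ 2 ^ M := pow_le_pow_right₀ (by norm_num) hM'
    · rw [if_neg h0, if_neg h0, sub_self, abs_zero]
      positivity

/-- **A gain of the own velocity is impossible.** -/
theorem gain_void {S : PCl m} (hS : S.Ne) {C₀ : ℝ} (htm : TmC S C₀) {I₀ I : Finset (Fin m)}
    (hI : I₀ ⊆ I) {v : Fin m} {W P η r s : ℝ} (hW0 : 0 ≤ W) (hW1 : W ≤ 1)
    (hη : RNum S (fun J F => ptr F J) (vg W) η) (hspr : SprI S I₀) (hfr : FrX S I₀ W P)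
    {L : Finset (Fin m) → Fin m → ℝ → ℝ → ℝ} (hL : LamW S L) (hs : 0 < s)
    (hLW : W ≤ L I v W r) (hLs : L I v W r + s ≤ 1)
    (hgain : ∀ e₀ : ℝ, 0 < e₀ → ∃ e : ℝ, 0 < e ∧ e ≤ e₀ ∧ ∀ ε : ℝ, 0 < ε →
      Bas S (fun J F A => ∃ (B : F.Ω → Prop) (a : PtT F → Fin m → ℝ) (c : PtT F → ℝ)
        (p : PtT F → ℝ) (q : PtT F → Fin m → ℝ) (V : Type) (z : F.Ω → V)
        (φ : (Fin m → ℤ) × V → ℝ), Sub B A ∧ Real.exp (-(ε * J)) * Pe F.p A ≤ Pe F.p B ∧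
        GainD F I₀ I v ⌊W * J⌋₊ ⌊e * J⌋₊ ⌊(L I v W r - W + s) * J⌋₊ ⌊P * J⌋₊ B a c p q z φ)) :
    False := by
  obtain ⟨d, hd, hlv⟩ := lvl_cls hL hW0 (half_pos hs) hLW (by linarith)
  obtain ⟨e, he, hed, hgn⟩ := hgain d hd
  obtain ⟨δ, hδ, τl, hτl, Jl, hl⟩ := hlv e he hed
  obtain ⟨τg, hτg, Jg, hgs⟩ := gain_step (κ := δ / 4) (γ := s / 8) htm hI (v := v) hW1 hη hspr hfr
    (by linarith) (by linarith)
  obtain ⟨ε, hε⟩ : ∃ ε, ε = min (δ / 4) (τg / 2) := ⟨_, rfl⟩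
  have ε0 : 0 < ε := by rw [hε]; exact lt_min (by linarith) (by linarith)
  have ε1 : ε ≤ δ / 4 := by rw [hε]; exact min_le_left _ _
  have ε2 : ε ≤ τg / 2 := by rw [hε]; exact min_le_right _ _
  obtain ⟨τh, hτh, Jh, hgn⟩ := hgn ε ε0
  obtain ⟨J₁, hJ₁⟩ := exists_nat_ge ((m + 8 : ℝ) / (s / 8))
  obtain ⟨J₂, hJ₂⟩ := exists_nat_ge (4 / (δ / 2))
  obtain ⟨J, hJ, F, A, hA⟩ := hS (min τl (min (τg / 2) τh))
    (lt_min hτl (lt_min (by linarith) hτh)) (Jl + Jg + Jh + J₁ + J₂)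
  have a1 : S.St τl J F A := S.mono (min_le_left _ _) hA
  have a2 : S.St (τg / 2) J F A := S.mono ((min_le_right _ _).trans (min_le_left _ _)) hA
  have a3 : S.St τh J F A := S.mono ((min_le_right _ _).trans (min_le_right _ _)) hA
  have hA0 := pos_of htm _ J F A a1
  have jr : ((Jl + Jg + Jh + J₁ + J₂ : ℕ) : ℝ) ≤ J := by exact_mod_cast hJ
  push_cast at jr
  have n1 : (0 : ℝ) ≤ J₁ := Nat.cast_nonneg _
  have n2 : (0 : ℝ) ≤ J₂ := Nat.cast_nonneg _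
  have n3 : (0 : ℝ) ≤ Jl := Nat.cast_nonneg _
  have n4 : (0 : ℝ) ≤ Jg := Nat.cast_nonneg _
  have n5 : (0 : ℝ) ≤ Jh := Nat.cast_nonneg _
  have hJ0 : (0 : ℝ) ≤ J := Nat.cast_nonneg J
  have q1 : (m + 8 : ℝ) ≤ s / 8 * J := by
    have h1 : (m + 8 : ℝ) / (s / 8) ≤ J := by linarith
    rw [div_le_iff₀ (by linarith)] at h1
    linarith
  have q2 : 4 ≤ δ / 2 * J := by
    have h1 : 4 / (δ / 2) ≤ (J : ℝ) := by linarith
    rw [div_le_iff₀ (by linarith)] at h1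
    linarith
  obtain ⟨B, a, c, p, q, V, z, φ, b1, b2, hG⟩ := hgn J (by omega) F A a3
  have hBS : S.St τg J F B := by
    refine S.mono ?_ (S.res ε0.le a2 b1 b2)
    linarith
  obtain ⟨B', a', th, c1, c2, c3⟩ := hgs J (by omega) F B hBS _ _ a c p q V z φ hG
  obtain ⟨M', hM'⟩ : ∃ M', M' = ⌊(L I v W r - W + s) * J⌋₊ - ⌊s / 8 * (J : ℝ)⌋₊ - (m + 4) :=
    ⟨_, rfl⟩
  have f1 : (L I v W r - W + s) * (J : ℝ) - 1 < ⌊(L I v W r - W + s) * J⌋₊ :=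
    Nat.sub_one_lt_floor _
  have f2 : (⌊s / 8 * (J : ℝ)⌋₊ : ℝ) ≤ s / 8 * J := Nat.floor_le (by positivity)
  have f3 : (⌊(L I v W r - W + s / 2) * (J : ℝ)⌋₊ : ℝ) ≤ (L I v W r - W + s / 2) * J :=
    Nat.floor_le (mul_nonneg (by linarith) hJ0)
  have f4 : ⌊(L I v W r - W + s / 2) * (J : ℝ)⌋₊ + ⌊s / 8 * (J : ℝ)⌋₊ + (m + 4) ≤
      ⌊(L I v W r - W + s) * J⌋₊ := by
    have h1 : ((⌊(L I v W r - W + s / 2) * (J : ℝ)⌋₊ + ⌊s / 8 * (J : ℝ)⌋₊ + (m + 4) : ℕ) : ℝ) <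
        ⌊(L I v W r - W + s) * J⌋₊ + 1 := by
      push_cast
      nlinarith
    have h2 : ⌊(L I v W r - W + s / 2) * (J : ℝ)⌋₊ + ⌊s / 8 * (J : ℝ)⌋₊ + (m + 4) <
        ⌊(L I v W r - W + s) * J⌋₊ + 1 := by exact_mod_cast h1
    omega
  obtain ⟨d1, d2⟩ := c3 M' (by rw [hM']; omega)
  have hfin := hl J (by omega) F A a1 B' M' a' _ th (fun ω hω => b1 ω (c1 ω hω)) d1 d2
    (by rw [hM']; omega)
  -- the masses
  have m1 : Real.exp (-(δ / 2 * J)) * Pe F.p A ≤ 2 * Pe F.p B' := by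
    calc Real.exp (-(δ / 2 * J)) * Pe F.p A ≤
        Real.exp (-(δ / 4 * J)) * (Real.exp (-(ε * J)) * Pe F.p A) := by
          rw [← mul_assoc, ← Real.exp_add]
          refine mul_le_mul_of_nonneg_right (Real.exp_le_exp.2 ?_) hA0.le
          have := mul_le_mul_of_nonneg_right ε1 hJ0
          linarith
      _ ≤ Real.exp (-(δ / 4 * J)) * Pe F.p B := mul_le_mul_of_nonneg_left b2 (Real.exp_pos _).le
      _ ≤ _ := c2
  have m2 : Real.exp (-(δ / 2 * J)) * Pe F.p A ≤ 2 * (Real.exp (-(δ * J)) * Pe F.p A) := by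
    linarith
  rw [← mul_assoc] at m2
  have m3 := le_of_mul_le_mul_right m2 hA0
  have m4 : Real.exp (δ / 2 * J) ≤ 2 := by
    have h1 : Real.exp (-(δ * J)) = Real.exp (-(δ / 2 * J)) * Real.exp (-(δ / 2 * J)) := by
      rw [← Real.exp_add]
      congr 1
      ring
    rw [h1] at m3
    have h2 : Real.exp (-(δ / 2 * J)) * 1 ≤
        Real.exp (-(δ / 2 * J)) * (2 * Real.exp (-(δ / 2 * J))) := by linarith
    have h3 := le_of_mul_le_mul_left h2 (Real.exp_pos _)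
    have h4 : Real.exp (δ / 2 * J) * Real.exp (-(δ / 2 * J)) = 1 := by
      rw [← Real.exp_add]
      simp
    have h5 := Real.exp_pos (δ / 2 * J)
    nlinarith
  have m5 := Real.add_one_le_exp (δ / 2 * J)
  linarith

end Pool.GN97
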